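import Pool.Agent.NH24.EP.Stm

/-!
# One scale: the terms of the windows
-/

set_option autoImplicit false

open Finset

namespace Pool.Agent.NH24.EP

/-- the data at one scale `n` -/
structure Dat (s : ℕ) where
  n : ℕ
  k : ℕ
  A : Finset ℕ
  x : Fin s → ℕ
  e : ℕ → ℤ
  c : ℝ

variable {s : ℕ}

/-- `a` lies in the window `i` -/
def Dat.w (d : Dat s) (B : ℕ) (i : Fin s) (a : ℕ) : Prop :=
  d.x i ≤ a ∧ (a : ℝ) ≤ d.x i + d.c * d.n ∧ 2 ^ a ≤ B ^ d.n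

open Classical in
/-- the first arguments assigned to the window `i` -/
noncomputable def Dat.I (d : Dat s) (B : ℕ) (i : Fin s) : Finset ℕ :=
  d.A.filter fun a => d.w B i a ∧ ∀ j < i, ¬ d.w B j a

/-- a counterexample at the scale `n` -/
structure Ok (B H : ℕ) (δ κ1 : ℝ) (d : Dat s) : Prop where
  c0 : 0 < d.c
  c1 : d.c ≤ 1
  nA : d.n ∈ d.A
  en : d.e d.n ≠ 0
  A1 : ∀ a ∈ d.A, d.n ≤ a ∧ a < d.k
  xA : ∀ i, d.x i ∈ d.A
  cov : ∀ a ∈ d.A, 2 ^ a ≤ B ^ d.n → ∃ i, d.x i ≤ a ∧ (a : ℝ) ≤ d.x i + d.c * d.n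
  eH : ∀ a ∈ d.A, (a : ℝ) ≤ (1 + δ) * d.n → |d.e a| ≤ H
  eC : ∀ a ∈ d.A, |(d.e a : ℝ)| ≤ (1 + d.c) ^ d.n
  kk : κ1 * d.n ≤ d.k
  sm : |∑ a ∈ d.A, (d.e a : ℝ) * dz a (d.k - a)| ≤ ((B : ℝ) ^ d.n)⁻¹

/-- the term of a window and a pair -/
noncomputable def Dat.tau (d : Dat s) (B : ℕ) (i : Fin s) (m v : ℕ) : ℝ :=
  ∑ a ∈ d.I B i, (d.e a : ℝ) / ((m : ℝ) ^ a * (v : ℝ) ^ (d.k - a))

variable {d : Dat s} {B H : ℕ} {δ κ1 : ℝ}

lemma mem_I {i : Fin s} {a : ℕ} : a ∈ d.I B i ↔ a ∈ d.A ∧ d.w B i a ∧ ∀ j < i, ¬ d.w B j a := by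
  classical
  unfold Dat.I
  rw [mem_filter]

lemma I_disj {i j : Fin s} (hij : i ≠ j) : Disjoint (d.I B i) (d.I B j) := by
  rw [Finset.disjoint_left]
  intro a h1 h2
  rw [mem_I] at h1 h2
  rcases lt_or_gt_of_ne hij with h | h
  · exact h2.2.2 i h h1.2.1
  · exact h1.2.2 j h h2.2.1

/-- the elements of `A` which are not far -/
noncomputable def Dat.N (d : Dat s) (B : ℕ) : Finset ℕ :=
  d.A.filter fun a => 2 ^ a ≤ B ^ d.n

lemma sum_N (h : Ok B H δ κ1 d) (f : ℕ → ℝ) : ∑ a ∈ d.N B, f a = ∑ i, ∑ a ∈ d.I B i, f a := by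
  classical
  rw [← sum_biUnion (fun i _ j _ hij => I_disj hij)]
  refine sum_congr ?_ fun _ _ => rfl
  ext a
  rw [mem_biUnion]
  unfold Dat.N
  rw [mem_filter]
  constructor
  · rintro ⟨h1, h2⟩
    have h3 : ∃ i : Fin s, d.w B i a := by
      obtain ⟨i, h4, h5⟩ := h.cov a h1 h2
      exact ⟨i, h4, h5, h2⟩
    have h4 : (Finset.univ.filter fun i => d.w B i a).Nonempty := by
      obtain ⟨i, hi⟩ := h3
      exact ⟨i, mem_filter.2 ⟨mem_univ _, hi⟩⟩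
    set i := (Finset.univ.filter fun i => d.w B i a).min' h4 with hi
    refine ⟨i, mem_univ _, mem_I.2 ⟨h1, ?_, fun j hj hw => ?_⟩⟩
    · exact (mem_filter.1 (Finset.min'_mem _ h4)).2
    · have := Finset.min'_le (Finset.univ.filter fun i => d.w B i a) j (mem_filter.2 ⟨mem_univ _, hw⟩)
      exact absurd hj (not_lt.2 this)
  · rintro ⟨i, -, hi⟩
    rw [mem_I] at hi
    exact ⟨hi.1, hi.2.1.2.2⟩

lemma geom_tail {S : Finset ℕ} {N Y : ℕ} (hY : 2 ≤ Y) (hS : ∀ a ∈ S, N ≤ a) :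
    ∑ a ∈ S, 1 / (Y : ℝ) ^ a ≤ 2 / (Y : ℝ) ^ N := by
  have hY0 : (2 : ℝ) ≤ Y := by exact_mod_cast hY
  have hYp : (0 : ℝ) < Y := by linarith
  have h1 : ∑ a ∈ S, 1 / (Y : ℝ) ^ a ≤ ∑' j : ℕ, 1 / (Y : ℝ) ^ (N + j) := by
    have hsum : Summable fun j : ℕ => 1 / (Y : ℝ) ^ (N + j) := by
      have : (fun j : ℕ => 1 / (Y : ℝ) ^ (N + j)) = fun j => (1 / (Y : ℝ) ^ N) * (1 / (Y : ℝ)) ^ j := by
        ext j
        rw [pow_add, one_div_pow]
        field_simp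
      rw [this]
      refine Summable.mul_left _ (summable_geometric_of_lt_one (by positivity) ?_)
      rw [div_lt_one hYp]
      linarith
    have h2 : ∑ a ∈ S, 1 / (Y : ℝ) ^ a = ∑ j ∈ S.image (fun a => a - N), 1 / (Y : ℝ) ^ (N + j) := by
      rw [sum_image]
      · refine sum_congr rfl fun a ha => ?_
        rw [Nat.add_sub_cancel' (hS a ha)]
      · intro a ha b hb hab
        have h3 := hS a ha
        have h4 := hS b hb
        simp only at hab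
        omega
    rw [h2]
    exact hsum.sum_le_tsum _ fun _ _ => by positivity
  refine h1.trans ?_
  have h2 : ∑' j : ℕ, 1 / (Y : ℝ) ^ (N + j) = (1 / (Y : ℝ) ^ N) * (1 - 1 / (Y : ℝ))⁻¹ := by
    rw [← tsum_geometric_of_lt_one (by positivity) (by rw [div_lt_one hYp]; linarith), ← tsum_mul_left]
    refine tsum_congr fun j => ?_
    rw [pow_add, one_div_pow]
    field_simp
  rw [h2]
  have h3 : (1 - 1 / (Y : ℝ))⁻¹ ≤ 2 := by
    have h4 : 1 / (Y : ℝ) ≤ 1 / 2 := one_div_le_one_div_of_le (by norm_num) hY0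
    have h5 : (1 : ℝ) / 2 ≤ 1 - 1 / (Y : ℝ) := by linarith
    calc (1 - 1 / (Y : ℝ))⁻¹ ≤ (1 / 2)⁻¹ := inv_anti₀ (by norm_num) h5
      _ = 2 := by norm_num
  calc (1 / (Y : ℝ) ^ N) * (1 - 1 / (Y : ℝ))⁻¹ ≤ (1 / (Y : ℝ) ^ N) * 2 := by gcongr
    _ = 2 / (Y : ℝ) ^ N := by ring

/-- the sum over the pairs -/
noncomputable def pr (M a q : ℕ) : ℝ :=
  ∑ m ∈ Finset.Icc 1 M, ∑ n ∈ Finset.Ico 1 m, 1 / ((m : ℝ) ^ a * (n : ℝ) ^ q)

lemma pr_nonneg (M a q : ℕ) : 0 ≤ pr M a q := by unfold pr; positivity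

lemma pr_le (M a q : ℕ) : pr M a q ≤ (M : ℝ) ^ 2 / 2 ^ a := by
  unfold pr
  have h1 : ∀ m ∈ Finset.Icc 1 M, ∑ n ∈ Finset.Ico 1 m, 1 / ((m : ℝ) ^ a * (n : ℝ) ^ q) ≤
      (M : ℝ) * (1 / 2 ^ a) := by
    intro m hm
    rw [mem_Icc] at hm
    have h2 : ∀ n ∈ Finset.Ico 1 m, 1 / ((m : ℝ) ^ a * (n : ℝ) ^ q) ≤ 1 / 2 ^ a := by
      intro n hn
      rw [mem_Ico] at hn
      have hm2 : (2 : ℝ) ≤ m := by exact_mod_cast (by omega : 2 ≤ m)
      have hn1 : (1 : ℝ) ≤ n := by exact_mod_cast hn.1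
      refine one_div_le_one_div_of_le (by positivity) ?_
      calc (2 : ℝ) ^ a = 2 ^ a * 1 := by ring
        _ ≤ (m : ℝ) ^ a * (n : ℝ) ^ q :=
          mul_le_mul (pow_le_pow_left₀ (by norm_num) hm2 a) (one_le_pow₀ hn1) (by norm_num)
            (by positivity)
    refine (sum_le_sum h2).trans ?_
    rw [sum_const, nsmul_eq_mul, Nat.card_Ico]
    refine mul_le_mul_of_nonneg_right ?_ (by positivity)
    exact_mod_cast (by omega : m - 1 ≤ M)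
  refine (sum_le_sum h1).trans ?_
  rw [sum_const, nsmul_eq_mul, Nat.card_Icc]
  rw [Nat.add_sub_cancel]
  apply le_of_eq
  ring

/-- the sum of all terms of windows and pairs is small -/
lemma all_small (hT : TAIL) (h : Ok B H δ κ1 d) (hn : 3 ≤ d.n) {M : ℕ} (hM : 1 ≤ M) (hMB : M + 1 ≤ B) :
    |∑ i, ∑ m ∈ Finset.Icc 1 M, ∑ v ∈ Finset.Ico 1 m, d.tau B i m v| ≤
      (1 + d.c) ^ d.n * ((1 + 4 * ((M : ℝ) + 1) ^ 3 + 2 * (M : ℝ) ^ 2) / ((M : ℝ) + 1) ^ d.n) := by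
  classical
  set C : ℝ := (1 + d.c) ^ d.n with hC
  have hc0 := h.c0
  have hC1 : 1 ≤ C := one_le_pow₀ (by linarith)
  have hM1 : (1 : ℝ) ≤ M := by exact_mod_cast hM
  have e1 : ∑ i, ∑ m ∈ Finset.Icc 1 M, ∑ v ∈ Finset.Ico 1 m, d.tau B i m v =
      ∑ a ∈ d.N B, (d.e a : ℝ) * pr M a (d.k - a) := by
    rw [sum_N h]
    refine sum_congr rfl fun i _ => ?_
    unfold Dat.tau pr
    simp_rw [mul_sum]
    rw [sum_comm]
    conv_rhs => rw [sum_comm]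
    rw [sum_comm]
    refine sum_congr rfl fun m _ => ?_
    rw [sum_comm]
    refine sum_congr rfl fun v _ => ?_
    refine sum_congr rfl fun a _ => ?_
    rw [mul_one_div]
  have e2 : ∑ a ∈ d.N B, (d.e a : ℝ) * pr M a (d.k - a) =
      ∑ a ∈ d.A, (d.e a : ℝ) * dz a (d.k - a) -
        ∑ a ∈ d.A, (d.e a : ℝ) * (dz a (d.k - a) - pr M a (d.k - a)) -
        ∑ a ∈ d.A.filter (fun a => ¬ 2 ^ a ≤ B ^ d.n), (d.e a : ℝ) * pr M a (d.k - a) := by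
    have h1 := sum_filter_add_sum_filter_not d.A (fun a => 2 ^ a ≤ B ^ d.n)
      (fun a => (d.e a : ℝ) * pr M a (d.k - a))
    have h2 : ∑ a ∈ d.A, (d.e a : ℝ) * (dz a (d.k - a) - pr M a (d.k - a)) =
        ∑ a ∈ d.A, (d.e a : ℝ) * dz a (d.k - a) - ∑ a ∈ d.A, (d.e a : ℝ) * pr M a (d.k - a) := by
      rw [← sum_sub_distrib]
      exact sum_congr rfl fun a _ => by ring
    rw [h2, ← h1]
    unfold Dat.N
    ring
  rw [e1, e2]
  have b1 := h.sm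
  have b2 : |∑ a ∈ d.A, (d.e a : ℝ) * (dz a (d.k - a) - pr M a (d.k - a))| ≤
      C * (4 * ((M : ℝ) + 1) ^ 3 / ((M : ℝ) + 1) ^ d.n) := by
    refine (abs_sum_le_sum_abs _ _).trans ?_
    calc ∑ a ∈ d.A, |(d.e a : ℝ) * (dz a (d.k - a) - pr M a (d.k - a))|
        ≤ ∑ a ∈ d.A, C * (2 * ((M : ℝ) + 1) ^ 3) * (1 / ((M + 1 : ℕ) : ℝ) ^ a) := by
          refine sum_le_sum fun a ha => ?_
          rw [abs_mul]
          have h1 := hT M a (d.k - a) hM (hn.trans (h.A1 a ha).1)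
          calc |(d.e a : ℝ)| * |dz a (d.k - a) - pr M a (d.k - a)|
              ≤ C * (2 * ((M : ℝ) + 1) ^ 3 / ((M : ℝ) + 1) ^ a) :=
                mul_le_mul (h.eC a ha) h1 (abs_nonneg _) (by positivity)
            _ = C * (2 * ((M : ℝ) + 1) ^ 3) * (1 / ((M + 1 : ℕ) : ℝ) ^ a) := by
                push_cast
                ring
      _ = C * (2 * ((M : ℝ) + 1) ^ 3) * ∑ a ∈ d.A, 1 / ((M + 1 : ℕ) : ℝ) ^ a := by rw [mul_sum]
      _ ≤ C * (2 * ((M : ℝ) + 1) ^ 3) * (2 / ((M + 1 : ℕ) : ℝ) ^ d.n) := by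
          refine mul_le_mul_of_nonneg_left (geom_tail (by omega) fun a ha => (h.A1 a ha).1) (by positivity)
      _ = C * (4 * ((M : ℝ) + 1) ^ 3 / ((M : ℝ) + 1) ^ d.n) := by
          push_cast
          ring
  have hHM : (M : ℝ) + 1 ≤ B := by exact_mod_cast hMB
  have hpow : ((M : ℝ) + 1) ^ d.n ≤ (B : ℝ) ^ d.n := pow_le_pow_left₀ (by positivity) hHM _
  have b3 : |∑ a ∈ d.A.filter (fun a => ¬ 2 ^ a ≤ B ^ d.n), (d.e a : ℝ) * pr M a (d.k - a)| ≤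
      C * (2 * (M : ℝ) ^ 2 / ((M : ℝ) + 1) ^ d.n) := by
    rcases (d.A.filter (fun a => ¬ 2 ^ a ≤ B ^ d.n)).eq_empty_or_nonempty with h0 | h0
    · rw [h0, sum_empty, abs_zero]
      positivity
    refine (abs_sum_le_sum_abs _ _).trans ?_
    set S := d.A.filter (fun a => ¬ 2 ^ a ≤ B ^ d.n) with hS
    set N := S.min' h0 with hN
    have hN2 : B ^ d.n < 2 ^ N := by
      exact not_le.1 (mem_filter.1 (Finset.min'_mem S h0)).2
    calc ∑ a ∈ S, |(d.e a : ℝ) * pr M a (d.k - a)|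
        ≤ ∑ a ∈ S, C * (M : ℝ) ^ 2 * (1 / ((2 : ℕ) : ℝ) ^ a) := by
          refine sum_le_sum fun a ha => ?_
          rw [abs_mul, abs_of_nonneg (pr_nonneg _ _ _)]
          calc |(d.e a : ℝ)| * pr M a (d.k - a) ≤ C * ((M : ℝ) ^ 2 / 2 ^ a) :=
                mul_le_mul (h.eC a (mem_filter.1 ha).1) (pr_le _ _ _) (pr_nonneg _ _ _) (by positivity)
            _ = C * (M : ℝ) ^ 2 * (1 / ((2 : ℕ) : ℝ) ^ a) := by
                push_cast
                ring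
      _ = C * (M : ℝ) ^ 2 * ∑ a ∈ S, 1 / ((2 : ℕ) : ℝ) ^ a := by rw [mul_sum]
      _ ≤ C * (M : ℝ) ^ 2 * (2 / ((2 : ℕ) : ℝ) ^ N) :=
          mul_le_mul_of_nonneg_left (geom_tail le_rfl fun a ha => Finset.min'_le _ _ ha) (by positivity)
      _ ≤ C * (M : ℝ) ^ 2 * (2 / ((M : ℝ) + 1) ^ d.n) := by
          have h5 : (B : ℝ) ^ d.n ≤ (2 : ℝ) ^ N := by exact_mod_cast hN2.le
          have h6 : ((M : ℝ) + 1) ^ d.n ≤ ((2 : ℕ) : ℝ) ^ N := by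
            push_cast
            exact hpow.trans h5
          gcongr
      _ = C * (2 * (M : ℝ) ^ 2 / ((M : ℝ) + 1) ^ d.n) := by ring
  have b1' : |∑ a ∈ d.A, (d.e a : ℝ) * dz a (d.k - a)| ≤ C * (1 / ((M : ℝ) + 1) ^ d.n) := by
    refine b1.trans ?_
    calc ((B : ℝ) ^ d.n)⁻¹ ≤ (((M : ℝ) + 1) ^ d.n)⁻¹ := inv_anti₀ (by positivity) hpow
      _ = 1 * (1 / ((M : ℝ) + 1) ^ d.n) := by ring
      _ ≤ C * (1 / ((M : ℝ) + 1) ^ d.n) := by gcongr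
  refine (abs_sub _ _).trans ?_
  refine (add_le_add (abs_sub _ _) le_rfl).trans ?_
  refine (add_le_add (add_le_add b1' b2) b3).trans (le_of_eq ?_)
  ring

/-- the term of a window and a pair is small -/
lemma tau_le (h : Ok B H δ κ1 d) {i : Fin s} {m v : ℕ} (hv : 1 ≤ v) (hvm : v < m) :
    |d.tau B i m v| ≤ (1 + d.c) ^ d.n * (d.c * d.n + 1) *
      (((v : ℝ) / m) ^ d.x i * (1 / (v : ℝ) ^ d.k)) := by
  have hv0 : (0 : ℝ) < v := by exact_mod_cast hv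
  have hm0 : (0 : ℝ) < m := by exact_mod_cast (by omega : 0 < m)
  have hc0 := h.c0
  have hcard : ((d.I B i).card : ℝ) ≤ d.c * d.n + 1 := by
    have h1 : d.I B i ⊆ Finset.Icc (d.x i) (d.x i + ⌊d.c * d.n⌋₊) := by
      intro a ha
      rw [mem_I] at ha
      obtain ⟨-, ⟨h2, h3, -⟩, -⟩ := ha
      rw [mem_Icc]
      refine ⟨h2, ?_⟩
      have h4 : ((a - d.x i : ℕ) : ℝ) ≤ d.c * d.n := by
        rw [Nat.cast_sub h2]
        linarith
      have h5 := Nat.le_floor h4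
      omega
    have h2 := Finset.card_le_card h1
    rw [Nat.card_Icc] at h2
    have h3 : (d.I B i).card ≤ ⌊d.c * d.n⌋₊ + 1 := by omega
    have h4 : (⌊d.c * d.n⌋₊ : ℝ) ≤ d.c * d.n := Nat.floor_le (by positivity)
    calc ((d.I B i).card : ℝ) ≤ ((⌊d.c * d.n⌋₊ + 1 : ℕ) : ℝ) := by exact_mod_cast h3
      _ ≤ d.c * d.n + 1 := by push_cast; linarith
  unfold Dat.tau
  refine (abs_sum_le_sum_abs _ _).trans ?_
  calc ∑ a ∈ d.I B i, |(d.e a : ℝ) / ((m : ℝ) ^ a * (v : ℝ) ^ (d.k - a))|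
      ≤ ∑ a ∈ d.I B i, (1 + d.c) ^ d.n * (((v : ℝ) / m) ^ d.x i * (1 / (v : ℝ) ^ d.k)) := by
        refine sum_le_sum fun a ha => ?_
        rw [mem_I] at ha
        rw [abs_div, abs_of_pos (by positivity : (0 : ℝ) < (m : ℝ) ^ a * (v : ℝ) ^ (d.k - a)), div_eq_mul_one_div]
        refine mul_le_mul (h.eC a ha.1) ?_ (by positivity) (by positivity)
        have h1 : 1 / ((m : ℝ) ^ a * (v : ℝ) ^ (d.k - a)) = ((v : ℝ) / m) ^ a * (1 / (v : ℝ) ^ d.k) := by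
          have h2 : (v : ℝ) ^ d.k = (v : ℝ) ^ a * (v : ℝ) ^ (d.k - a) := by
            rw [← pow_add, Nat.add_sub_cancel' (h.A1 a ha.1).2.le]
          rw [h2, div_pow]
          field_simp
        rw [h1]
        refine mul_le_mul_of_nonneg_right ?_ (by positivity)
        refine pow_le_pow_of_le_one (by positivity) ?_ ha.2.1.1
        rw [div_le_one hm0]
        exact_mod_cast hvm.le
    _ = ((d.I B i).card : ℝ) * ((1 + d.c) ^ d.n * (((v : ℝ) / m) ^ d.x i * (1 / (v : ℝ) ^ d.k))) := by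
        rw [sum_const, nsmul_eq_mul]
    _ ≤ (d.c * d.n + 1) * ((1 + d.c) ^ d.n * (((v : ℝ) / m) ^ d.x i * (1 / (v : ℝ) ^ d.k))) :=
        mul_le_mul_of_nonneg_right hcard (by positivity)
    _ = _ := by ring

end Pool.Agent.NH24.EP
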