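import Pool.Agent.NH24.EP.A

/-!
# Sequences of scales: the dominating terms have an exponentially smaller sum
-/

set_option autoImplicit false

open Finset Filter Topology

namespace Pool.Agent.NH24.EP

/-- exponentially smaller than `exp (-L n)` -/
def Neg (n : ℕ → ℕ) (L : ℝ) (u : ℕ → ℝ) : Prop :=
  ∃ θ : ℝ, L < θ ∧ ∀ᶠ t in atTop, |u t| ≤ Real.exp (-(θ * n t))

lemma Neg.add {n : ℕ → ℕ} (hn : Tendsto n atTop atTop) {L : ℝ} {u v : ℕ → ℝ} (hu : Neg n L u)
    (hv : Neg n L v) : Neg n L fun t => u t + v t := by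
  obtain ⟨θ1, h1, h2⟩ := hu
  obtain ⟨θ2, h3, h4⟩ := hv
  set θ := min θ1 θ2 with hθ
  have hL : L < θ := lt_min h1 h3
  refine ⟨(L + θ) / 2, by linarith, ?_⟩
  have hη : 0 < (θ - L) / 2 := by linarith
  have h5 : ∀ᶠ t in atTop, Real.log 2 ≤ (θ - L) / 2 * n t := by
    have h6 : Tendsto (fun t => (θ - L) / 2 * (n t : ℝ)) atTop atTop :=
      (tendsto_natCast_atTop_atTop.comp hn).const_mul_atTop hη
    exact h6.eventually_ge_atTop _
  filter_upwards [h2, h4, h5] with t h2 h4 h5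
  have hn0 : (0 : ℝ) ≤ n t := Nat.cast_nonneg _
  have e1 : |u t| ≤ Real.exp (-(θ * n t)) :=
    h2.trans (Real.exp_le_exp.2 (neg_le_neg (mul_le_mul_of_nonneg_right (min_le_left _ _) hn0)))
  have e2 : |v t| ≤ Real.exp (-(θ * n t)) :=
    h4.trans (Real.exp_le_exp.2 (neg_le_neg (mul_le_mul_of_nonneg_right (min_le_right _ _) hn0)))
  calc |u t + v t| ≤ |u t| + |v t| := abs_add_le _ _
    _ ≤ 2 * Real.exp (-(θ * n t)) := by linarith
    _ = Real.exp (Real.log 2 + -(θ * n t)) := by rw [Real.exp_add, Real.exp_log (by norm_num)]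
    _ ≤ Real.exp (-((L + θ) / 2 * n t)) := Real.exp_le_exp.2 (by nlinarith)

lemma Neg.neg {n : ℕ → ℕ} {L : ℝ} {u : ℕ → ℝ} (hu : Neg n L u) : Neg n L fun t => - u t := by
  obtain ⟨θ, h1, h2⟩ := hu
  exact ⟨θ, h1, by simpa only [abs_neg] using h2⟩

lemma Neg.zero {n : ℕ → ℕ} {L : ℝ} : Neg n L fun _ => 0 :=
  ⟨L + 1, by linarith, Eventually.of_forall fun t => by rw [abs_zero]; positivity⟩

lemma Neg.sum {n : ℕ → ℕ} (hn : Tendsto n atTop atTop) {L : ℝ} {ι : Type} (S : Finset ι)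
    (u : ℕ → ι → ℝ) (h : ∀ i ∈ S, Neg n L fun t => u t i) : Neg n L fun t => ∑ i ∈ S, u t i := by
  classical
  induction S using Finset.induction_on with
  | empty => simpa using Neg.zero
  | insert a S ha ih =>
    have h1 := Neg.add hn (h a (mem_insert_self _ _)) (ih fun i hi => h i (mem_insert_of_mem hi))
    simpa only [sum_insert ha] using h1

lemma neg_of {n : ℕ → ℕ} (hn : Tendsto n atTop atTop) {L ρ : ℝ} {u r : ℕ → ℝ}
    (h : ∀ᶠ t in atTop, |u t| ≤ Real.exp (-(r t * n t))) (hr : Tendsto r atTop (𝓝 ρ)) (hρ : L < ρ) :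
    Neg n L u := by
  refine ⟨(L + ρ) / 2, by linarith, ?_⟩
  filter_upwards [h, hr.eventually (lt_mem_nhds (by linarith : (L + ρ) / 2 < ρ))] with t h1 h2
  refine h1.trans (Real.exp_le_exp.2 (neg_le_neg ?_))
  exact mul_le_mul_of_nonneg_right h2.le (Nat.cast_nonneg _)

/-- the pairs -/
def Pairs (M : ℕ) : Finset (ℕ × ℕ) := ((Icc 1 M) ×ˢ (Icc 1 M)).filter fun z => z.2 < z.1

lemma mem_Pairs {M : ℕ} {z : ℕ × ℕ} : z ∈ Pairs M ↔ 1 ≤ z.2 ∧ z.2 < z.1 ∧ z.1 ≤ M := by
  unfold Pairs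
  rw [mem_filter, mem_product, mem_Icc, mem_Icc]
  omega

lemma sum_Pairs (M : ℕ) (f : ℕ → ℕ → ℝ) :
    ∑ z ∈ Pairs M, f z.1 z.2 = ∑ m ∈ Icc 1 M, ∑ v ∈ Ico 1 m, f m v := by
  unfold Pairs
  rw [sum_filter, sum_product]
  refine sum_congr rfl fun m hm => ?_
  rw [mem_Icc] at hm
  rw [← sum_filter]
  refine sum_congr ?_ fun _ _ => rfl
  ext v
  simp only [mem_filter, mem_Icc, mem_Ico]
  omega

/-- the indices of the terms -/
def All (s M : ℕ) : Finset (Fin s × (ℕ × ℕ)) := (univ : Finset (Fin s)) ×ˢ Pairs M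

lemma mem_All {s M : ℕ} {l : Fin s × (ℕ × ℕ)} : l ∈ All s M ↔ 1 ≤ l.2.2 ∧ l.2.2 < l.2.1 ∧ l.2.1 ≤ M := by
  unfold All
  rw [mem_product, mem_Pairs]
  simp

/-- the limit size -/
noncomputable def lam {s : ℕ} (β : Fin s → ℝ) (κ : ℝ) (l : Fin s × (ℕ × ℕ)) : ℝ :=
  β l.1 * (Real.log l.2.1 - Real.log l.2.2) + κ * Real.log l.2.2

/-- the dominating terms -/
noncomputable def FF (s M : ℕ) (β : Fin s → ℝ) (κ : ℝ) : Finset (Fin s × (ℕ × ℕ)) :=
  (All s M).filter fun l => lam β κ l ≤ Real.log M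

section

variable {s : ℕ} {B H M K : ℕ} {δ κ1 κ : ℝ} {d : ℕ → Dat s} {β : Fin s → ℝ}

lemma pow_exp {y : ℝ} (hy : 0 ≤ y) (n : ℕ) : (1 + y) ^ n ≤ Real.exp (y * n) := by
  calc (1 + y) ^ n ≤ (Real.exp y) ^ n :=
        pow_le_pow_left₀ (by linarith) (by linarith [Real.add_one_le_exp y]) _
    _ = Real.exp (y * n) := by rw [← Real.exp_nat_mul, mul_comm]

lemma neg_all (hT : TAIL) (hn : Tendsto (fun t => (d t).n) atTop atTop)
    (hok : ∀ t, Ok B H δ κ1 (d t)) (hc : Tendsto (fun t => (d t).c) atTop (𝓝 0)) (hM : 1 ≤ M)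
    (hMB : M + 1 ≤ B) :
    Neg (fun t => (d t).n) (Real.log M) fun t => ∑ l ∈ All s M, (d t).tau B l.1 l.2.1 l.2.2 := by
  set C : ℝ := 1 + 4 * ((M : ℝ) + 1) ^ 3 + 2 * (M : ℝ) ^ 2 with hC
  have hC0 : 0 < C := by positivity
  have hM0 : (0 : ℝ) < M := by exact_mod_cast hM
  have hM1 : (0 : ℝ) < (M : ℝ) + 1 := by positivity
  refine neg_of (ρ := Real.log (M + 1))
    (r := fun t => Real.log (M + 1) - (d t).c - Real.log C / (d t).n) hn ?_ ?_
    (Real.log_lt_log hM0 (by linarith))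
  · filter_upwards [hn.eventually_ge_atTop 3] with t ht
    have h1 := all_small hT (hok t) ht hM hMB
    have h2 : ∑ l ∈ All s M, (d t).tau B l.1 l.2.1 l.2.2 =
        ∑ i, ∑ m ∈ Finset.Icc 1 M, ∑ v ∈ Finset.Ico 1 m, (d t).tau B i m v := by
      unfold All
      rw [sum_product]
      exact sum_congr rfl fun i _ => sum_Pairs M fun m v => (d t).tau B i m v
    rw [h2]
    refine h1.trans ?_
    have hn0 : (0 : ℝ) < (d t).n := by exact_mod_cast (by omega : 0 < (d t).n)
    have h3 := pow_exp (hok t).c0.le (d t).n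
    have h4 : ((M : ℝ) + 1) ^ (d t).n = Real.exp (Real.log (M + 1) * (d t).n) := by
      rw [mul_comm, Real.exp_nat_mul, Real.exp_log hM1]
    rw [h4]
    calc (1 + (d t).c) ^ (d t).n * (C / Real.exp (Real.log (M + 1) * (d t).n))
        ≤ Real.exp ((d t).c * (d t).n) * (C / Real.exp (Real.log (M + 1) * (d t).n)) := by gcongr
      _ = Real.exp ((d t).c * (d t).n) * (Real.exp (Real.log C) *
            Real.exp (-(Real.log (M + 1) * (d t).n))) := by
          rw [Real.exp_log hC0, Real.exp_neg]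
          ring
      _ = Real.exp (-((Real.log (M + 1) - (d t).c - Real.log C / (d t).n) * (d t).n)) := by
          rw [← Real.exp_add, ← Real.exp_add]
          congr 1
          field_simp
          ring
  · have h1 : Tendsto (fun t => Real.log C / ((d t).n : ℝ)) atTop (𝓝 0) :=
      Tendsto.div_atTop tendsto_const_nhds (tendsto_natCast_atTop_atTop.comp hn)
    have h2 := (tendsto_const_nhds (x := Real.log ((M : ℝ) + 1))).sub hc |>.sub h1
    simpa using h2

lemma neg_term (hn : Tendsto (fun t => (d t).n) atTop atTop) (hok : ∀ t, Ok B H δ κ1 (d t))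
    (hc : Tendsto (fun t => (d t).c) atTop (𝓝 0))
    (hβ : ∀ i, Tendsto (fun t => min (((d t).x i : ℝ) / (d t).n) K) atTop (𝓝 (β i)))
    (hκ : Tendsto (fun t => min (((d t).k : ℝ) / (d t).n) K) atTop (𝓝 κ))
    {l : Fin s × (ℕ × ℕ)} (hl : l ∈ All s M) {L : ℝ} (hL : L < lam β κ l) :
    Neg (fun t => (d t).n) L fun t => (d t).tau B l.1 l.2.1 l.2.2 := by
  obtain ⟨i, m, v⟩ := l
  rw [mem_All] at hl
  simp only at hl
  obtain ⟨hv, hvm, -⟩ := hl
  have hv0 : (0 : ℝ) < v := by exact_mod_cast hv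
  have hm0 : (0 : ℝ) < m := by exact_mod_cast (by omega : 0 < m)
  have hlv : 0 ≤ Real.log v := Real.log_nonneg (by exact_mod_cast hv)
  have hlm : 0 ≤ Real.log m - Real.log v :=
    sub_nonneg.2 (Real.log_le_log hv0 (by exact_mod_cast hvm.le))
  refine neg_of (ρ := lam β κ (i, m, v))
    (r := fun t => -(2 * (d t).c) + (min (((d t).x i : ℝ) / (d t).n) K * (Real.log m - Real.log v) +
      min (((d t).k : ℝ) / (d t).n) K * Real.log v)) hn ?_ ?_ hL
  · filter_upwards [hn.eventually_ge_atTop 1] with t ht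
    have hn0 : (0 : ℝ) < (d t).n := by exact_mod_cast (by omega : 0 < (d t).n)
    have hc0 := (hok t).c0
    have h1 := tau_le (B := B) (hok t) (i := i) hv hvm
    refine h1.trans ?_
    have h2 := pow_exp (hok t).c0.le (d t).n
    have h3 : (d t).c * (d t).n + 1 ≤ Real.exp ((d t).c * (d t).n) := Real.add_one_le_exp _
    have h4 : ((v : ℝ) / m) ^ (d t).x i = Real.exp (-((d t).x i * (Real.log m - Real.log v))) := by
      rw [← Real.exp_log (by positivity : (0 : ℝ) < (v : ℝ) / m), ← Real.exp_nat_mul,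
        Real.log_div hv0.ne' hm0.ne']
      congr 1
      ring
    have h5 : 1 / (v : ℝ) ^ (d t).k = Real.exp (-((d t).k * Real.log v)) := by
      rw [Real.exp_neg, Real.exp_nat_mul, Real.exp_log hv0, one_div]
    rw [h4, h5]
    have h6 : min (((d t).x i : ℝ) / (d t).n) K * (d t).n ≤ (d t).x i := by
      calc min (((d t).x i : ℝ) / (d t).n) K * (d t).n ≤ ((d t).x i : ℝ) / (d t).n * (d t).n :=
            mul_le_mul_of_nonneg_right (min_le_left _ _) hn0.le
        _ = (d t).x i := by field_simp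
    have h7 : min (((d t).k : ℝ) / (d t).n) K * (d t).n ≤ (d t).k := by
      calc min (((d t).k : ℝ) / (d t).n) K * (d t).n ≤ ((d t).k : ℝ) / (d t).n * (d t).n :=
            mul_le_mul_of_nonneg_right (min_le_left _ _) hn0.le
        _ = (d t).k := by field_simp
    have h8 := mul_le_mul_of_nonneg_right h6 hlm
    have h9 := mul_le_mul_of_nonneg_right h7 hlv
    calc (1 + (d t).c) ^ (d t).n * ((d t).c * (d t).n + 1) *
          (Real.exp (-((d t).x i * (Real.log m - Real.log v))) * Real.exp (-((d t).k * Real.log v)))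
        ≤ Real.exp ((d t).c * (d t).n) * Real.exp ((d t).c * (d t).n) *
          (Real.exp (-((d t).x i * (Real.log m - Real.log v))) * Real.exp (-((d t).k * Real.log v))) := by
          gcongr
      _ = Real.exp (2 * (d t).c * (d t).n - ((d t).x i * (Real.log m - Real.log v) +
            (d t).k * Real.log v)) := by
          rw [← Real.exp_add, ← Real.exp_add, ← Real.exp_add]
          congr 1
          ring
      _ ≤ _ := by
          refine Real.exp_le_exp.2 ?_
          nlinarith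
  · have h1 := ((hβ i).mul_const (Real.log m - Real.log v)).add (hκ.mul_const (Real.log v))
    have h2 := (hc.const_mul 2).neg.add h1
    unfold lam
    simpa using h2

lemma neg_FF (hT : TAIL) (hn : Tendsto (fun t => (d t).n) atTop atTop)
    (hok : ∀ t, Ok B H δ κ1 (d t)) (hc : Tendsto (fun t => (d t).c) atTop (𝓝 0))
    (hβ : ∀ i, Tendsto (fun t => min (((d t).x i : ℝ) / (d t).n) K) atTop (𝓝 (β i)))
    (hκ : Tendsto (fun t => min (((d t).k : ℝ) / (d t).n) K) atTop (𝓝 κ)) (hM : 1 ≤ M)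
    (hMB : M + 1 ≤ B) :
    Neg (fun t => (d t).n) (Real.log M) fun t => ∑ l ∈ FF s M β κ, (d t).tau B l.1 l.2.1 l.2.2 := by
  have h1 := neg_all (s := s) hT hn hok hc hM hMB
  have h2 : Neg (fun t => (d t).n) (Real.log M) fun t =>
      ∑ l ∈ (All s M).filter (fun l => ¬ lam β κ l ≤ Real.log M), (d t).tau B l.1 l.2.1 l.2.2 := by
    refine Neg.sum hn _ _ fun l hl => ?_
    rw [mem_filter] at hl
    exact neg_term hn hok hc hβ hκ hl.1 (not_le.1 hl.2)
  have h3 := Neg.add hn h1 h2.neg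
  refine (funext fun t => ?_ : (fun t => ∑ l ∈ FF s M β κ, (d t).tau B l.1 l.2.1 l.2.2) = _) ▸ h3
  unfold FF
  rw [← sum_filter_add_sum_filter_not (All s M) (fun l => lam β κ l ≤ Real.log M)]
  ring

end

end Pool.Agent.NH24.EP
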