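import Pool.Agent.NH24.EP.B
import Pool.Agent.NH24.DZ.B

/-!
# The dominating terms have a nonzero sum, by divisibility by a prime
-/

set_option autoImplicit false

open Finset Filter Topology

namespace Pool.Agent.NH24.EP

/-- a rational number whose denominator divides powers of two coprime integers is an integer -/
lemma int_of {M g k : ℕ} (hM : M.Prime) (hg : ¬ M ∣ g) {R : ℝ} {Z Y : ℤ} (h1 : (g : ℝ) ^ k * R = Z)
    (h2 : (M : ℝ) ^ k * R = Y) : ∃ z : ℤ, R = z := by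
  have hco : IsCoprime ((g : ℤ) ^ k) ((M : ℤ) ^ k) := by
    have h3 : Nat.Coprime g M := ((Nat.Prime.coprime_iff_not_dvd hM).2 hg).symm
    exact (Nat.isCoprime_iff_coprime.2 h3).pow
  obtain ⟨u, v, huv⟩ := hco
  refine ⟨u * Z + v * Y, ?_⟩
  push_cast
  rw [← h1, ← h2]
  have h4 : (u : ℝ) * (g : ℝ) ^ k + v * (M : ℝ) ^ k = 1 := by exact_mod_cast huv
  calc R = ((u : ℝ) * (g : ℝ) ^ k + v * (M : ℝ) ^ k) * R := by rw [h4, one_mul]
    _ = _ := by ring

section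

variable {s : ℕ} {B H : ℕ} {δ κ1 : ℝ} {d : Dat s}

/-- the terms of pairs below `M` are integers after multiplication by a power of `(M - 1)!` -/
lemma tau_int (h : Ok B H δ κ1 d) {i : Fin s} {m v M : ℕ} (hv : 1 ≤ v) (hvm : v < m) (hm : m < M) :
    ∃ z : ℤ, (((M - 1).factorial : ℕ) : ℝ) ^ d.k * d.tau B i m v = z := by
  have hv0 : (0 : ℝ) < v := by exact_mod_cast hv
  have hm0 : (0 : ℝ) < m := by exact_mod_cast (by omega : 0 < m)
  have h1 : ∀ a ∈ d.I B i, ∃ z : ℤ, (((M - 1).factorial : ℕ) : ℝ) ^ d.k *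
      ((d.e a : ℝ) / ((m : ℝ) ^ a * (v : ℝ) ^ (d.k - a))) = z := by
    intro a ha
    have hak := (h.A1 a (mem_I.1 ha).1).2
    have h2 : m ^ a * v ^ (d.k - a) ∣ ((M - 1).factorial) ^ d.k := by
      have h3 : ((M - 1).factorial) ^ d.k =
          ((M - 1).factorial) ^ a * ((M - 1).factorial) ^ (d.k - a) := by
        rw [← pow_add, Nat.add_sub_cancel' hak.le]
      rw [h3]
      exact mul_dvd_mul (pow_dvd_pow_of_dvd (Nat.dvd_factorial (by omega) (by omega)) _)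
        (pow_dvd_pow_of_dvd (Nat.dvd_factorial (by omega) (by omega)) _)
    obtain ⟨w, hw⟩ := h2
    refine ⟨w * d.e a, ?_⟩
    have h4 : (((M - 1).factorial : ℕ) : ℝ) ^ d.k = (m : ℝ) ^ a * (v : ℝ) ^ (d.k - a) * w := by
      exact_mod_cast hw
    rw [h4]
    push_cast
    field_simp
  choose! z hz using h1
  refine ⟨∑ a ∈ d.I B i, z a, ?_⟩
  unfold Dat.tau
  rw [mul_sum, Int.cast_sum]
  exact sum_congr rfl fun a ha => hz a ha

/-- the first cluster -/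
noncomputable def A1 (d : Dat s) (B : ℕ) (β : Fin s → ℝ) : Finset ℕ := by
  classical
  exact (univ.filter fun i => β i ≤ 1).biUnion fun i => d.I B i

lemma mem_A1 {β : Fin s → ℝ} {a : ℕ} : a ∈ A1 d B β ↔ ∃ i, β i ≤ 1 ∧ a ∈ d.I B i := by
  classical
  unfold A1
  rw [mem_biUnion]
  simp

/-- the value of the first cluster at `M` -/
noncomputable def R1 (d : Dat s) (B : ℕ) (β : Fin s → ℝ) (M : ℕ) : ℝ :=
  ∑ a ∈ A1 d B β, (d.e a : ℝ) / (M : ℝ) ^ a

lemma n_mem_A1 {β : Fin s → ℝ} (h : Ok B H δ κ1 d) (hB : 2 ≤ B)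
    (ha : ∀ i, 1 < β i → d.n < d.x i) : d.n ∈ A1 d B β := by
  classical
  have h1 : ∃ i : Fin s, d.w B i d.n := by
    obtain ⟨i, h4, h5⟩ := h.cov d.n h.nA (Nat.pow_le_pow_left hB _)
    exact ⟨i, h4, h5, Nat.pow_le_pow_left hB _⟩
  have h4 : (Finset.univ.filter fun i => d.w B i d.n).Nonempty := by
    obtain ⟨i, hi⟩ := h1
    exact ⟨i, mem_filter.2 ⟨mem_univ _, hi⟩⟩
  set i := (Finset.univ.filter fun i => d.w B i d.n).min' h4 with hi
  have hwi : d.w B i d.n := (mem_filter.1 (Finset.min'_mem _ h4)).2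
  have hxi := (h.A1 _ (h.xA i)).1
  have hxe : d.x i = d.n := le_antisymm hwi.1 hxi
  have hβi : β i ≤ 1 := by
    by_contra hcon
    have := ha i (not_le.1 hcon)
    omega
  rw [mem_A1]
  refine ⟨i, hβi, mem_I.2 ⟨h.nA, hwi, fun j hj hw => ?_⟩⟩
  have := Finset.min'_le (Finset.univ.filter fun i => d.w B i d.n) j (mem_filter.2 ⟨mem_univ _, hw⟩)
  exact absurd hj (not_lt.2 this)

lemma A1_le {β : Fin s → ℝ} (h : Ok B H δ κ1 d)
    (hb : ∀ i, β i ≤ 1 → (d.x i : ℝ) + d.c * d.n ≤ (1 + δ) * d.n) {a : ℕ} (ha : a ∈ A1 d B β) :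
    d.n ≤ a ∧ a < d.k ∧ |d.e a| ≤ H := by
  rw [mem_A1] at ha
  obtain ⟨i, hi, ha⟩ := ha
  rw [mem_I] at ha
  exact ⟨(h.A1 a ha.1).1, (h.A1 a ha.1).2, h.eH a ha.1 (ha.2.1.2.1.trans (hb i hi))⟩

lemma exists_prime {β : Fin s → ℝ} {L : ℕ} (h : Ok B H δ κ1 d) (hB : 2 ≤ B)
    (ha : ∀ i, 1 < β i → d.n < d.x i)
    (hb : ∀ i, β i ≤ 1 → (d.x i : ℝ) + d.c * d.n ≤ (1 + δ) * d.n) (hL : H < primorial L) :
    ∃ p : ℕ, p.Prime ∧ p ≤ L ∧ R1 d B β p ≠ 0 := by
  by_contra hcon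
  push Not at hcon
  have h1 : (primorial L : ℝ) ≤ (H : ℝ) := Pool.Agent.NH24.DZ.primorial_le (S := A1 d B β) (c := d.e)
    ⟨d.n, n_mem_A1 h hB ha, h.en⟩ (fun a ha1 => by exact_mod_cast (A1_le h hb ha1).2.2)
    (fun l hl hlL => hcon l hl hlL)
  have h2 : primorial L ≤ H := by exact_mod_cast h1
  omega

lemma R1_lt {β : Fin s → ℝ} {M : ℕ} (h : Ok B H δ κ1 d) (hM : 2 ≤ M)
    (hb : ∀ i, β i ≤ 1 → (d.x i : ℝ) + d.c * d.n ≤ (1 + δ) * d.n) (hn : 2 * H < 2 ^ d.n) :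
    |R1 d B β M| < 1 := by
  unfold R1
  have hM0 : (2 : ℝ) ≤ M := by exact_mod_cast hM
  have hMp : (0 : ℝ) < M := by linarith
  calc |∑ a ∈ A1 d B β, (d.e a : ℝ) / (M : ℝ) ^ a|
      ≤ ∑ a ∈ A1 d B β, |(d.e a : ℝ) / (M : ℝ) ^ a| := abs_sum_le_sum_abs _ _
    _ ≤ ∑ a ∈ A1 d B β, (H : ℝ) * (1 / (M : ℝ) ^ a) := by
        refine sum_le_sum fun a ha => ?_
        rw [abs_div, abs_of_pos (by positivity : (0 : ℝ) < (M : ℝ) ^ a), div_eq_mul_one_div]
        refine mul_le_mul_of_nonneg_right ?_ (by positivity)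
        exact_mod_cast (A1_le h hb ha).2.2
    _ = (H : ℝ) * ∑ a ∈ A1 d B β, 1 / (M : ℝ) ^ a := by rw [mul_sum]
    _ ≤ (H : ℝ) * (2 / (M : ℝ) ^ d.n) :=
        mul_le_mul_of_nonneg_left (geom_tail hM fun a ha => (A1_le h hb ha).1) (Nat.cast_nonneg _)
    _ ≤ (H : ℝ) * (2 / (2 : ℝ) ^ d.n) := by gcongr
    _ < 1 := by
        rw [← mul_div_assoc, div_lt_one (by positivity)]
        have : ((2 * H : ℕ) : ℝ) < ((2 ^ d.n : ℕ) : ℝ) := by exact_mod_cast hn
        push_cast at this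
        linarith

lemma sum_ne {M : ℕ} {β : Fin s → ℝ} {κ : ℝ} (h : Ok B H δ κ1 d) (hM : M.Prime)
    (hβ1 : ∀ i, 1 ≤ β i) (hκ : 1 < κ) (hR : R1 d B β M ≠ 0) (hR1 : |R1 d B β M| < 1) :
    ∑ l ∈ FF s M β κ, d.tau B l.1 l.2.1 l.2.2 ≠ 0 := by
  classical
  intro h0
  have hM2 := hM.two_le
  have hlM : 0 < Real.log M := Real.log_pos (by exact_mod_cast hM.one_lt)
  set I1 : Finset (Fin s) := univ.filter fun i => β i ≤ 1 with hI1
  -- the terms with `m = M`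
  have e1 : (FF s M β κ).filter (fun l => l.2.1 = M) = I1.image fun i => (i, (M, 1)) := by
    ext l
    obtain ⟨i, m, v⟩ := l
    simp only [mem_filter, mem_image, FF, mem_All, Prod.mk.injEq, hI1, mem_univ, true_and]
    constructor
    · rintro ⟨⟨⟨h1, h2, h3⟩, h4⟩, rfl⟩
      have hv0 : (0 : ℝ) < v := by exact_mod_cast h1
      unfold lam at h4
      simp only at h4
      have hlv : 0 ≤ Real.log v := Real.log_nonneg (by exact_mod_cast h1)
      have hlmv : 0 ≤ Real.log m - Real.log v :=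
        sub_nonneg.2 (Real.log_le_log hv0 (by exact_mod_cast h2.le))
      have hv1 : v = 1 := by
        by_contra hv1
        have h5 : 0 < Real.log v := Real.log_pos (by exact_mod_cast (by omega : 1 < v))
        have h6 := mul_le_mul_of_nonneg_right (hβ1 i) hlmv
        have h7 := mul_lt_mul_of_pos_right hκ h5
        linarith
      subst hv1
      refine ⟨i, ?_, rfl, rfl, rfl⟩
      rw [Nat.cast_one, Real.log_one, sub_zero, mul_zero, add_zero] at h4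
      exact le_of_mul_le_mul_right (by linarith) hlM
    · rintro ⟨j, hj, rfl, rfl, rfl⟩
      refine ⟨⟨⟨le_rfl, by omega, le_rfl⟩, ?_⟩, rfl⟩
      unfold lam
      simp only [Nat.cast_one, Real.log_one, sub_zero, mul_zero, add_zero]
      calc β j * Real.log M ≤ 1 * Real.log M := mul_le_mul_of_nonneg_right hj hlM.le
        _ = Real.log M := one_mul _
  have e2 : ∑ l ∈ (FF s M β κ).filter (fun l => l.2.1 = M), d.tau B l.1 l.2.1 l.2.2 =
      R1 d B β M := by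
    have h1 : A1 d B β = I1.biUnion fun i => d.I B i := by
      unfold A1
      rw [hI1]
    unfold R1
    rw [e1, sum_image (by intro i _ j _ hij; simpa using hij), h1,
      sum_biUnion (fun i _ j _ hij => I_disj hij)]
    refine sum_congr rfl fun i _ => ?_
    unfold Dat.tau
    refine sum_congr rfl fun a _ => ?_
    simp
  have e3 : ∃ Z : ℤ, (((M - 1).factorial : ℕ) : ℝ) ^ d.k *
      ∑ l ∈ (FF s M β κ).filter (fun l => ¬ l.2.1 = M), d.tau B l.1 l.2.1 l.2.2 = Z := by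
    have h1 : ∀ l ∈ (FF s M β κ).filter (fun l => ¬ l.2.1 = M), ∃ z : ℤ,
        (((M - 1).factorial : ℕ) : ℝ) ^ d.k * d.tau B l.1 l.2.1 l.2.2 = z := by
      intro l hl
      rw [mem_filter] at hl
      unfold FF at hl
      rw [mem_filter, mem_All] at hl
      exact tau_int h hl.1.1.1 hl.1.1.2.1 (lt_of_le_of_ne hl.1.1.2.2 hl.2)
    choose! z hz using h1
    refine ⟨∑ l ∈ (FF s M β κ).filter (fun l => ¬ l.2.1 = M), z l, ?_⟩
    rw [mul_sum, Int.cast_sum]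
    exact sum_congr rfl fun l hl => hz l hl
  obtain ⟨Z, hZ⟩ := e3
  rw [← sum_filter_add_sum_filter_not _ (fun l : Fin s × (ℕ × ℕ) => l.2.1 = M), e2] at h0
  have e4 : (((M - 1).factorial : ℕ) : ℝ) ^ d.k * R1 d B β M = ((-Z : ℤ) : ℝ) := by
    push_cast
    rw [← hZ, ← mul_neg]
    congr 1
    linarith
  have hg : ¬ M ∣ (M - 1).factorial := by
    intro h1
    have := (hM.dvd_factorial).1 h1
    omega
  have e5 : ∃ Y : ℤ, (M : ℝ) ^ d.k * R1 d B β M = Y := by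
    refine ⟨∑ a ∈ A1 d B β, d.e a * (M : ℤ) ^ (d.k - a), ?_⟩
    unfold R1
    rw [mul_sum, Int.cast_sum]
    refine sum_congr rfl fun a ha => ?_
    have hak : a < d.k := by
      rw [mem_A1] at ha
      obtain ⟨i, -, ha⟩ := ha
      exact (h.A1 a (mem_I.1 ha).1).2
    have hM0 : (0 : ℝ) < M := by exact_mod_cast hM.pos
    have h1 : (M : ℝ) ^ d.k = (M : ℝ) ^ (d.k - a) * (M : ℝ) ^ a := by
      rw [← pow_add, Nat.sub_add_cancel hak.le]
    push_cast
    rw [h1]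
    field_simp
  obtain ⟨Y, hY⟩ := e5
  obtain ⟨z, hz⟩ := int_of hM hg e4 hY
  rw [hz] at hR hR1
  have h1 : |z| < 1 := by exact_mod_cast hR1
  have h2 : z = 0 := Int.abs_lt_one_iff.1 h1
  exact hR (by rw [h2, Int.cast_zero])

end

end Pool.Agent.NH24.EP
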