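import Pool.Agent.NH24.EP.C

/-!
# The sum of the dominating terms vanishes infinitely often, by the subspace theorem
-/

set_option autoImplicit false

open Finset Filter Topology

namespace Pool.Agent.NH24.EP

lemma uncap {u : ℕ → ℝ} {K β : ℝ} (h : Tendsto (fun t => min (u t) K) atTop (𝓝 β)) (hβ : β < K) :
    Tendsto u atTop (𝓝 β) ∧ ∀ᶠ t in atTop, u t < K := by
  have h1 : ∀ᶠ t in atTop, u t < K := by
    filter_upwards [h.eventually (gt_mem_nhds hβ)] with t ht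
    by_contra hcon
    rw [min_eq_right (not_lt.1 hcon)] at ht
    exact lt_irrefl _ ht
  refine ⟨h.congr' ?_, h1⟩
  filter_upwards [h1] with t ht
  exact min_eq_left ht.le

section

variable {s : ℕ} {B H M K : ℕ} {δ κ1 : ℝ}

/-- the upper end of the window `i` -/
noncomputable def hi (d : Dat s) (i : Fin s) : ℕ := d.x i + ⌊d.c * d.n⌋₊

/-- the coefficient -/
noncomputable def qq (d : Dat s) (B : ℕ) (l : Fin s × (ℕ × ℕ)) : ℤ :=
  ∑ a ∈ d.I B l.1, d.e a * ((l.2.1 : ℤ) ^ (hi d l.1 - a) * (l.2.2 : ℤ) ^ (a - d.x l.1))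

/-- the unit -/
noncomputable def DD (b K : ℕ) (d : Dat s) (l : Fin s × (ℕ × ℕ)) : ℕ :=
  b ^ ((K + 1) * d.n) / (l.2.1 ^ hi d l.1 * l.2.2 ^ (d.k - d.x l.1))

lemma I_hi {d : Dat s} (h : Ok B H δ κ1 d) {i : Fin s} {a : ℕ} (ha : a ∈ d.I B i) :
    d.x i ≤ a ∧ a ≤ hi d i ∧ a < d.k := by
  rw [mem_I] at ha
  obtain ⟨h1, ⟨h2, h3, -⟩, -⟩ := ha
  refine ⟨h2, ?_, (h.A1 a h1).2⟩
  have h4 : ((a - d.x i : ℕ) : ℝ) ≤ d.c * d.n := by
    rw [Nat.cast_sub h2]
    linarith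
  have h5 := Nat.le_floor h4
  unfold hi
  omega

lemma card_le {d : Dat s} (h : Ok B H δ κ1 d) (i : Fin s) : ((d.I B i).card : ℝ) ≤ d.c * d.n + 1 := by
  have hc0 := h.c0
  have h1 : d.I B i ⊆ Finset.Icc (d.x i) (d.x i + ⌊d.c * d.n⌋₊) := by
    intro a ha
    have := I_hi h ha
    rw [mem_Icc]
    exact ⟨this.1, this.2.1⟩
  have h2 := Finset.card_le_card h1
  rw [Nat.card_Icc] at h2
  have h3 : (d.I B i).card ≤ ⌊d.c * d.n⌋₊ + 1 := by omega
  have h4 : (⌊d.c * d.n⌋₊ : ℝ) ≤ d.c * d.n := Nat.floor_le (by positivity)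
  calc ((d.I B i).card : ℝ) ≤ ((⌊d.c * d.n⌋₊ + 1 : ℕ) : ℝ) := by exact_mod_cast h3
    _ ≤ d.c * d.n + 1 := by push_cast; linarith

lemma qD {d : Dat s} (h : Ok B H δ κ1 d) {b : ℕ} {l : Fin s × (ℕ × ℕ)} (hv : 1 ≤ l.2.2)
    (hvm : l.2.2 < l.2.1)
    (hdvd : l.2.1 ^ hi d l.1 * l.2.2 ^ (d.k - d.x l.1) ∣ b ^ ((K + 1) * d.n)) :
    (qq d B l : ℝ) * (DD b K d l : ℝ) = (b : ℝ) ^ ((K + 1) * d.n) * d.tau B l.1 l.2.1 l.2.2 := by
  obtain ⟨i, m, v⟩ := l
  simp only at hv hvm hdvd ⊢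
  have hv0 : (0 : ℝ) < v := by exact_mod_cast hv
  have hm0 : (0 : ℝ) < m := by exact_mod_cast (by omega : 0 < m)
  have h1 : (DD b K d (i, m, v) : ℝ) = (b : ℝ) ^ ((K + 1) * d.n) /
      ((m : ℝ) ^ hi d i * (v : ℝ) ^ (d.k - d.x i)) := by
    unfold DD
    rw [Nat.cast_div hdvd (by push_cast; positivity)]
    push_cast
    rfl
  rw [h1]
  unfold qq Dat.tau
  simp only
  push_cast
  rw [sum_mul, mul_sum]
  refine sum_congr rfl fun a ha => ?_
  obtain ⟨h2, h3, h4⟩ := I_hi h ha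
  have h5 : (m : ℝ) ^ hi d i = (m : ℝ) ^ (hi d i - a) * (m : ℝ) ^ a := by
    rw [← pow_add]
    congr 1
    omega
  have h6 : (v : ℝ) ^ (d.k - d.x i) = (v : ℝ) ^ (a - d.x i) * (v : ℝ) ^ (d.k - a) := by
    rw [← pow_add]
    congr 1
    omega
  rw [h5, h6]
  field_simp

lemma qq_le {d : Dat s} (h : Ok B H δ κ1 d) (hM : 1 ≤ M) {l : Fin s × (ℕ × ℕ)} (hv : 1 ≤ l.2.2)
    (hvm : l.2.2 < l.2.1) (hm : l.2.1 ≤ M) :
    |(qq d B l : ℝ)| ≤ Real.exp (d.c * d.n * (2 + 2 * Real.log M)) := by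
  obtain ⟨i, m, v⟩ := l
  simp only at hv hvm hm
  have hc0 := h.c0
  have hM0 : (0 : ℝ) < M := by exact_mod_cast hM
  have hM1 : (1 : ℝ) ≤ M := by exact_mod_cast hM
  have hlM : 0 ≤ Real.log M := Real.log_nonneg hM1
  set f := ⌊d.c * d.n⌋₊ with hf
  have hfl : (f : ℝ) ≤ d.c * d.n := Nat.floor_le (by positivity)
  have h1 : |(qq d B (i, m, v) : ℝ)| ≤ ∑ a ∈ d.I B i, (1 + d.c) ^ d.n * ((M : ℝ) ^ f * (M : ℝ) ^ f) := by
    unfold qq
    push_cast
    refine (abs_sum_le_sum_abs _ _).trans (sum_le_sum fun a ha => ?_)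
    obtain ⟨h2, h3, h4⟩ := I_hi h ha
    rw [abs_mul]
    have hv0 : (0 : ℝ) < v := by exact_mod_cast hv
    have hm0 : (0 : ℝ) < m := by exact_mod_cast (by omega : 0 < m)
    refine mul_le_mul (h.eC a (mem_I.1 ha).1) ?_ (abs_nonneg _) (by positivity)
    rw [abs_of_pos (by positivity : (0 : ℝ) < (m : ℝ) ^ (hi d i - a) * (v : ℝ) ^ (a - d.x i))]
    unfold hi at h3 ⊢
    refine mul_le_mul ?_ ?_ (by positivity) (by positivity)
    · calc (m : ℝ) ^ (d.x i + ⌊d.c * d.n⌋₊ - a) ≤ (M : ℝ) ^ (d.x i + ⌊d.c * d.n⌋₊ - a) :=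
            pow_le_pow_left₀ hm0.le (by exact_mod_cast hm) _
        _ ≤ (M : ℝ) ^ f := pow_le_pow_right₀ hM1 (by omega)
    · calc (v : ℝ) ^ (a - d.x i) ≤ (M : ℝ) ^ (a - d.x i) :=
            pow_le_pow_left₀ hv0.le (by exact_mod_cast (hvm.le.trans hm)) _
        _ ≤ (M : ℝ) ^ f := pow_le_pow_right₀ hM1 (by omega)
  refine h1.trans ?_
  rw [sum_const, nsmul_eq_mul]
  have h2 := card_le h i
  have h3 : d.c * d.n + 1 ≤ Real.exp (d.c * d.n) := Real.add_one_le_exp _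
  have h4 := pow_exp h.c0.le d.n
  have h5 : (M : ℝ) ^ f ≤ Real.exp (d.c * d.n * Real.log M) := by
    rw [← Real.exp_log hM0, ← Real.exp_nat_mul, Real.exp_log hM0]
    exact Real.exp_le_exp.2 (mul_le_mul_of_nonneg_right hfl hlM)
  calc ((d.I B i).card : ℝ) * ((1 + d.c) ^ d.n * ((M : ℝ) ^ f * (M : ℝ) ^ f))
      ≤ Real.exp (d.c * d.n) * (Real.exp (d.c * d.n) *
          (Real.exp (d.c * d.n * Real.log M) * Real.exp (d.c * d.n * Real.log M))) := by
        gcongr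
        exact h2.trans h3
    _ = Real.exp (d.c * d.n * (2 + 2 * Real.log M)) := by
        rw [← Real.exp_add, ← Real.exp_add, ← Real.exp_add]
        congr 1
        ring

variable {d : ℕ → Dat s} {β : Fin s → ℝ} {κ : ℝ}

lemma lam_eq (l : Fin s × (ℕ × ℕ)) :
    lam β κ l = β l.1 * Real.log l.2.1 + (κ - β l.1) * Real.log l.2.2 := by
  unfold lam
  ring

lemma F_bd (hM : 1 ≤ M) (hMK : M < 2 ^ K) (hβ1 : ∀ i, 1 ≤ β i) (hβκ : ∀ i, β i ≤ κ)
    {l : Fin s × (ℕ × ℕ)} (hl : l ∈ FF s M β κ) : β l.1 < K ∧ (l.2.2 ≠ 1 → κ < K) := by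
  unfold FF at hl
  rw [mem_filter, mem_All] at hl
  obtain ⟨⟨h1, h2, h3⟩, h4⟩ := hl
  have hl2 : 0 < Real.log 2 := Real.log_pos (by norm_num)
  have hM0 : (0 : ℝ) < M := by exact_mod_cast hM
  have hlog : Real.log M < K * Real.log 2 := by
    rw [← Real.log_pow]
    exact Real.log_lt_log hM0 (by exact_mod_cast hMK)
  have hv0 : (0 : ℝ) < l.2.2 := by exact_mod_cast h1
  have hlv : 0 ≤ Real.log l.2.2 := Real.log_nonneg (by exact_mod_cast h1)
  have hlm : Real.log 2 ≤ Real.log l.2.1 :=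
    Real.log_le_log (by norm_num) (by exact_mod_cast (by omega : 2 ≤ l.2.1))
  have hlmv : 0 ≤ Real.log l.2.1 - Real.log l.2.2 :=
    sub_nonneg.2 (Real.log_le_log hv0 (by exact_mod_cast h2.le))
  have hb1 := hβ1 l.1
  have hb2 := hβκ l.1
  constructor
  · rw [lam_eq] at h4
    have h5 : 0 ≤ (κ - β l.1) * Real.log l.2.2 := mul_nonneg (by linarith) hlv
    have h6 : β l.1 * Real.log 2 ≤ β l.1 * Real.log l.2.1 :=
      mul_le_mul_of_nonneg_left hlm (by linarith)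
    exact lt_of_mul_lt_mul_right (by linarith : β l.1 * Real.log 2 < K * Real.log 2) hl2.le
  · intro hv1
    unfold lam at h4
    have h5 : 0 ≤ β l.1 * (Real.log l.2.1 - Real.log l.2.2) := mul_nonneg (by linarith) hlmv
    have h7 : Real.log 2 ≤ Real.log l.2.2 :=
      Real.log_le_log (by norm_num) (by exact_mod_cast (by omega : 2 ≤ l.2.2))
    have h6 : κ * Real.log 2 ≤ κ * Real.log l.2.2 :=
      mul_le_mul_of_nonneg_left h7 (by linarith)
    exact lt_of_mul_lt_mul_right (by linarith : κ * Real.log 2 < K * Real.log 2) hl2.le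

lemma ev_dvd (hn : Tendsto (fun t => (d t).n) atTop atTop) (hok : ∀ t, Ok B H δ κ1 (d t))
    (hβ : ∀ i, Tendsto (fun t => min (((d t).x i : ℝ) / (d t).n) K) atTop (𝓝 (β i)))
    (hκ : Tendsto (fun t => min (((d t).k : ℝ) / (d t).n) K) atTop (𝓝 κ))
    (hM : 1 ≤ M) (hMK : M < 2 ^ K) (hβ1 : ∀ i, 1 ≤ β i) (hβκ : ∀ i, β i ≤ κ)
    {l : Fin s × (ℕ × ℕ)} (hl : l ∈ FF s M β κ) :
    ∀ᶠ t in atTop, l.2.1 ^ hi (d t) l.1 * l.2.2 ^ ((d t).k - (d t).x l.1) ∣
      (M.factorial) ^ ((K + 1) * (d t).n) := by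
  obtain ⟨hβK, hκK⟩ := F_bd hM hMK hβ1 hβκ hl
  unfold FF at hl
  rw [mem_filter, mem_All] at hl
  obtain ⟨⟨h1, h2, h3⟩, h4⟩ := hl
  have hdm : l.2.1 ∣ M.factorial := Nat.dvd_factorial (by omega) h3
  have hdv : l.2.2 ∣ M.factorial := Nat.dvd_factorial (by omega) (by omega)
  have hfl : ∀ t, (⌊(d t).c * (d t).n⌋₊ : ℕ) ≤ (d t).n := by
    intro t
    have h5 : (d t).c * (d t).n ≤ (d t).n := by
      calc (d t).c * (d t).n ≤ 1 * (d t).n :=
            mul_le_mul_of_nonneg_right (hok t).c1 (Nat.cast_nonneg _)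
        _ = (d t).n := one_mul _
    exact_mod_cast (Nat.floor_le (by have := (hok t).c0; positivity)).trans h5
  have key : ∀ u : ℕ, ∀ t, 0 < (d t).n → (u : ℝ) / (d t).n < K → u ≤ K * (d t).n := by
    intro u t ht hu
    have hn0 : (0 : ℝ) < (d t).n := by exact_mod_cast ht
    rw [div_lt_iff₀ hn0] at hu
    exact_mod_cast hu.le
  by_cases hv1 : l.2.2 = 1
  · filter_upwards [(uncap (hβ l.1) hβK).2, hn.eventually_ge_atTop 1] with t h5 h6
    rw [hv1, one_pow, mul_one]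
    refine (pow_dvd_pow_of_dvd hdm _).trans (pow_dvd_pow _ ?_)
    unfold hi
    have h7 := key _ t h6 h5
    have h8 := hfl t
    calc (d t).x l.1 + ⌊(d t).c * (d t).n⌋₊ ≤ K * (d t).n + (d t).n := add_le_add h7 h8
      _ = (K + 1) * (d t).n := by ring
  · filter_upwards [(uncap hκ (hκK hv1)).2, hn.eventually_ge_atTop 1] with t h5 h6
    have h7 := key _ t h6 h5
    have h8 := hfl t
    have h9 := ((hok t).A1 _ ((hok t).xA l.1)).2
    have h10 : (K + 1) * (d t).n = K * (d t).n + (d t).n := by ring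
    have h11 : hi (d t) l.1 + ((d t).k - (d t).x l.1) ≤ (K + 1) * (d t).n := by
      rw [h10]
      unfold hi
      omega
    calc l.2.1 ^ hi (d t) l.1 * l.2.2 ^ ((d t).k - (d t).x l.1) ∣
          M.factorial ^ hi (d t) l.1 * M.factorial ^ ((d t).k - (d t).x l.1) :=
        mul_dvd_mul (pow_dvd_pow_of_dvd hdm _) (pow_dvd_pow_of_dvd hdv _)
      _ = M.factorial ^ (hi (d t) l.1 + ((d t).k - (d t).x l.1)) := by rw [pow_add]
      _ ∣ _ := pow_dvd_pow _ h11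

lemma floor_lim (hn : Tendsto (fun t => (d t).n) atTop atTop) (hok : ∀ t, Ok B H δ κ1 (d t))
    (hc : Tendsto (fun t => (d t).c) atTop (𝓝 0)) :
    Tendsto (fun t => (⌊(d t).c * (d t).n⌋₊ : ℝ) / (d t).n) atTop (𝓝 0) := by
  refine squeeze_zero' (Eventually.of_forall fun t => by positivity) ?_ hc
  filter_upwards [hn.eventually_ge_atTop 1] with t ht
  have hn0 : (0 : ℝ) < (d t).n := by exact_mod_cast ht
  rw [div_le_iff₀ hn0]
  exact Nat.floor_le (by have := (hok t).c0; positivity)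

lemma DD_lim (hn : Tendsto (fun t => (d t).n) atTop atTop) (hok : ∀ t, Ok B H δ κ1 (d t))
    (hc : Tendsto (fun t => (d t).c) atTop (𝓝 0))
    (hβ : ∀ i, Tendsto (fun t => min (((d t).x i : ℝ) / (d t).n) K) atTop (𝓝 (β i)))
    (hκ : Tendsto (fun t => min (((d t).k : ℝ) / (d t).n) K) atTop (𝓝 κ))
    (hM : 2 ≤ M) (hMK : M < 2 ^ K) (hβ1 : ∀ i, 1 ≤ β i) (hβκ : ∀ i, β i ≤ κ)
    {l : Fin s × (ℕ × ℕ)} (hl : l ∈ FF s M β κ) :
    Tendsto (fun t => Real.log (DD M.factorial K (d t) l) / ((d t).n * Real.log M.factorial)) atTop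
      (𝓝 ((K : ℝ) + 1 - lam β κ l / Real.log M.factorial)) := by
  have hM1 : 1 ≤ M := by omega
  obtain ⟨hβK, hκK⟩ := F_bd hM1 hMK hβ1 hβκ hl
  have hdvd := ev_dvd hn hok hβ hκ hM1 hMK hβ1 hβκ hl
  have hl' := hl
  unfold FF at hl'
  rw [mem_filter, mem_All] at hl'
  obtain ⟨⟨h1, h2, h3⟩, h4⟩ := hl'
  have hb2 : 2 ≤ M.factorial := hM.trans (Nat.self_le_factorial M)
  have hlb : 0 < Real.log M.factorial := Real.log_pos (by exact_mod_cast (by omega : 1 < M.factorial))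
  have hb0 : (0 : ℝ) < M.factorial := by exact_mod_cast (by omega : 0 < M.factorial)
  have hv0 : (0 : ℝ) < l.2.2 := by exact_mod_cast h1
  have hm0 : (0 : ℝ) < l.2.1 := by exact_mod_cast (by omega : 0 < l.2.1)
  have hx := (uncap (hβ l.1) hβK).1
  have hf := floor_lim hn hok hc
  have hsecond : Tendsto (fun t => (((d t).k : ℝ) / (d t).n - ((d t).x l.1 : ℝ) / (d t).n) *
      Real.log l.2.2) atTop (𝓝 ((κ - β l.1) * Real.log l.2.2)) := by
    by_cases hv1 : l.2.2 = 1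
    · rw [hv1, Nat.cast_one, Real.log_one, mul_zero]
      simp only [mul_zero]
      exact tendsto_const_nhds
    · exact ((uncap hκ (hκK hv1)).1.sub hx).mul_const _
  have hall : Tendsto (fun t => (K : ℝ) + 1 - ((((d t).x l.1 : ℝ) / (d t).n +
      (⌊(d t).c * (d t).n⌋₊ : ℝ) / (d t).n) * Real.log l.2.1 +
      (((d t).k : ℝ) / (d t).n - ((d t).x l.1 : ℝ) / (d t).n) * Real.log l.2.2) /
      Real.log M.factorial) atTop (𝓝 ((K : ℝ) + 1 - lam β κ l / Real.log M.factorial)) := by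
    rw [lam_eq]
    have h5 := ((hx.add hf).mul_const (Real.log l.2.1)).add hsecond
    rw [add_zero] at h5
    exact tendsto_const_nhds.sub (h5.div_const _)
  refine hall.congr' ?_
  filter_upwards [hdvd, hn.eventually_ge_atTop 1] with t h5 h6
  have hn0 : (0 : ℝ) < (d t).n := by exact_mod_cast h6
  have h9 := ((hok t).A1 _ ((hok t).xA l.1)).2
  have h7 : Real.log (DD M.factorial K (d t) l) = ((K : ℝ) + 1) * (d t).n * Real.log M.factorial -
      ((((d t).x l.1 : ℝ) + ⌊(d t).c * (d t).n⌋₊) * Real.log l.2.1 +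
      (((d t).k : ℝ) - (d t).x l.1) * Real.log l.2.2) := by
    unfold DD
    rw [Nat.cast_div h5 (by push_cast; positivity)]
    push_cast
    rw [Real.log_div (by positivity) (by positivity), Real.log_mul (by positivity) (by positivity),
      Real.log_pow, Real.log_pow, Real.log_pow]
    unfold hi
    rw [Nat.cast_sub h9.le]
    push_cast
    ring
  rw [h7]
  field_simp

theorem freq_zero (hS : SMALL) (hT : TAIL) (hn : StrictMono fun t => (d t).n)
    (hok : ∀ t, Ok B H δ κ1 (d t)) (hc : Tendsto (fun t => (d t).c) atTop (𝓝 0))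
    (hβ : ∀ i, Tendsto (fun t => min (((d t).x i : ℝ) / (d t).n) K) atTop (𝓝 (β i)))
    (hκ : Tendsto (fun t => min (((d t).k : ℝ) / (d t).n) K) atTop (𝓝 κ))
    (hM : 2 ≤ M) (hMB : M + 1 ≤ B) (hMK : M < 2 ^ K) (hβ1 : ∀ i, 1 ≤ β i) (hβκ : ∀ i, β i ≤ κ) :
    ∃ᶠ t in atTop, ∑ l ∈ FF s M β κ, (d t).tau B l.1 l.2.1 l.2.2 = 0 := by
  classical
  have hM1 : 1 ≤ M := by omega
  have hnt := hn.tendsto_atTop
  obtain ⟨θ, hθ, hneg⟩ := neg_FF hT hnt hok hc hβ hκ hM1 hMB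
  have hb2 : 2 ≤ M.factorial := hM.trans (Nat.self_le_factorial M)
  have hlb : 0 < Real.log M.factorial := Real.log_pos (by exact_mod_cast (by omega : 1 < M.factorial))
  have hb0 : (0 : ℝ) < M.factorial := by exact_mod_cast (by omega : 0 < M.factorial)
  set F := FF s M β κ with hF
  set ε := F.equivFin with hε
  have hdvd : ∀ᶠ t in atTop, ∀ l ∈ F, l.2.1 ^ hi (d t) l.1 * l.2.2 ^ ((d t).k - (d t).x l.1) ∣
      (M.factorial) ^ ((K + 1) * (d t).n) :=
    (Finset.eventually_all F).2 fun l hl => ev_dvd hnt hok hβ hκ hM1 hMK hβ1 hβκ hl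
  have hmem : ∀ l ∈ F, 1 ≤ l.2.2 ∧ l.2.2 < l.2.1 ∧ l.2.1 ≤ M ∧ lam β κ l ≤ Real.log M := by
    intro l hl
    rw [hF] at hl
    unfold FF at hl
    rw [mem_filter, mem_All] at hl
    exact ⟨hl.1.1, hl.1.2.1, hl.1.2.2, hl.2⟩
  have hsum : ∀ t, (∀ l ∈ F, l.2.1 ^ hi (d t) l.1 * l.2.2 ^ ((d t).k - (d t).x l.1) ∣
      (M.factorial) ^ ((K + 1) * (d t).n)) →
      ∑ j : Fin F.card, (qq (d t) B (ε.symm j).1 : ℝ) * (DD M.factorial K (d t) (ε.symm j).1 : ℝ) =
      (M.factorial : ℝ) ^ ((K + 1) * (d t).n) * ∑ l ∈ F, (d t).tau B l.1 l.2.1 l.2.2 := by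
    intro t ht
    rw [Equiv.sum_comp ε.symm (fun l : F => (qq (d t) B l.1 : ℝ) * (DD M.factorial K (d t) l.1 : ℝ)),
      mul_sum, ← Finset.sum_coe_sort F (fun l => (M.factorial : ℝ) ^ ((K + 1) * (d t).n) *
        (d t).tau B l.1 l.2.1 l.2.2)]
    refine sum_congr rfl fun l _ => ?_
    obtain ⟨h1, h2, -, -⟩ := hmem l.1 l.2
    exact qD (hok t) h1 h2 (ht l.1 l.2)
  have h := hS F.card M.factorial (K + 1) (fun t => (d t).n)
    (fun t j => DD M.factorial K (d t) (ε.symm j).1) (fun t j => qq (d t) B (ε.symm j).1)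
    (fun j => (K : ℝ) + 1 - lam β κ (ε.symm j).1 / Real.log M.factorial)
    ((K : ℝ) + 1 - θ / Real.log M.factorial) hb2 hn ?_ ?_ ?_ ?_ ?_
  · refine (h.and_eventually hdvd).mono ?_
    rintro t ⟨h1, h2⟩
    have h3 := hsum t h2
    have h4 : ∑ j : Fin F.card, (qq (d t) B (ε.symm j).1 : ℝ) *
        (DD M.factorial K (d t) (ε.symm j).1 : ℝ) = 0 := by
      have h5 : ((∑ j : Fin F.card, qq (d t) B (ε.symm j).1 *
          (DD M.factorial K (d t) (ε.symm j).1 : ℤ) : ℤ) : ℝ) = ((0 : ℤ) : ℝ) := by exact_mod_cast h1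
      push_cast at h5
      exact h5
    rw [h4] at h3
    rcases mul_eq_zero.1 h3.symm with h6 | h6
    · exact absurd h6 (by positivity)
    · exact h6
  · filter_upwards [hdvd] with t ht j
    unfold DD
    exact Nat.div_dvd_of_dvd (ht _ (ε.symm j).2)
  · intro j
    obtain ⟨-, -, -, h4⟩ := hmem _ (ε.symm j).2
    have h5 : lam β κ (ε.symm j).1 / Real.log M.factorial < θ / Real.log M.factorial :=
      div_lt_div_of_pos_right (by linarith) hlb
    linarith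
  · intro j
    exact DD_lim hnt hok hc hβ hκ hM hMK hβ1 hβκ (ε.symm j).2
  · intro j η hη
    obtain ⟨h1, h2, h3, -⟩ := hmem _ (ε.symm j).2
    have hlM : 0 ≤ Real.log M := Real.log_nonneg (by exact_mod_cast hM1)
    have h5 : Tendsto (fun t => (d t).c * (2 + 2 * Real.log M)) atTop (𝓝 0) := by
      simpa using hc.mul_const (2 + 2 * Real.log M)
    filter_upwards [h5.eventually (gt_mem_nhds (mul_pos hη hlb))] with t ht
    refine (qq_le (hok t) hM1 h1 h2 h3).trans ?_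
    rw [Real.rpow_def_of_pos hb0]
    refine Real.exp_le_exp.2 ?_
    have hn0 : (0 : ℝ) ≤ (d t).n := Nat.cast_nonneg _
    have := mul_le_mul_of_nonneg_right ht.le hn0
    linarith
  · filter_upwards [hneg, hdvd] with t ht h2
    rw [hsum t h2, abs_mul, abs_of_pos (by positivity : (0 : ℝ) < (M.factorial : ℝ) ^ ((K + 1) * (d t).n))]
    calc (M.factorial : ℝ) ^ ((K + 1) * (d t).n) * |∑ l ∈ F, (d t).tau B l.1 l.2.1 l.2.2|
        ≤ (M.factorial : ℝ) ^ ((K + 1) * (d t).n) * Real.exp (-(θ * (d t).n)) := by gcongr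
      _ = (M.factorial : ℝ) ^ (((K : ℝ) + 1 - θ / Real.log M.factorial) * (d t).n) := by
          rw [Real.rpow_def_of_pos hb0]
          have h6 : (M.factorial : ℝ) ^ ((K + 1) * (d t).n) =
              Real.exp (((K + 1) * (d t).n : ℕ) * Real.log M.factorial) := by
            rw [Real.exp_nat_mul, Real.exp_log hb0]
          rw [h6, ← Real.exp_add]
          congr 1
          push_cast
          field_simp
          ring

end

end Pool.Agent.NH24.EP
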