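import Pool.Agent.NH24.EP.D

/-!
# The main theorem for `k ≥ κ n`, `κ > 1`
-/

set_option autoImplicit false

open Finset Filter Topology

namespace Pool.Agent.NH24.EP

theorem seq_false {s B H L : ℕ} {δ κ1 κ : ℝ} {d : ℕ → Dat s} {β : Fin s → ℝ}
    (hS : SMALL) (hT : TAIL) (hL2 : 2 ≤ L) (hL : H < primorial L) (hLB : L + 1 ≤ B) (hδ : 0 < δ)
    (hκ1 : 1 < κ1) (hn : StrictMono fun t => (d t).n)
    (hok : ∀ t, Ok B H δ κ1 (d t)) (hc : Tendsto (fun t => (d t).c) atTop (𝓝 0))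
    (hβ : ∀ i, Tendsto (fun t => min (((d t).x i : ℝ) / (d t).n) L) atTop (𝓝 (β i)))
    (hκ : Tendsto (fun t => min (((d t).k : ℝ) / (d t).n) L) atTop (𝓝 κ)) : False := by
  have hnt := hn.tendsto_atTop
  have hL2' : (2 : ℝ) ≤ L := by exact_mod_cast hL2
  have hβ1 : ∀ i, 1 ≤ β i := by
    intro i
    refine ge_of_tendsto (hβ i) ?_
    filter_upwards [hnt.eventually_ge_atTop 1] with t ht
    have hn0 : (0 : ℝ) < (d t).n := by exact_mod_cast ht
    refine le_min ?_ (by linarith)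
    rw [le_div_iff₀ hn0, one_mul]
    exact_mod_cast ((hok t).A1 _ ((hok t).xA i)).1
  have hβκ : ∀ i, β i ≤ κ := by
    intro i
    refine le_of_tendsto_of_tendsto (hβ i) hκ (Eventually.of_forall fun t => ?_)
    refine min_le_min ?_ le_rfl
    refine div_le_div_of_nonneg_right ?_ (Nat.cast_nonneg _)
    exact_mod_cast ((hok t).A1 _ ((hok t).xA i)).2.le
  have hκ' : 1 < κ := by
    have h1 : min κ1 (L : ℝ) ≤ κ := by
      refine ge_of_tendsto hκ ?_
      filter_upwards [hnt.eventually_ge_atTop 1] with t ht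
      have hn0 : (0 : ℝ) < (d t).n := by exact_mod_cast ht
      refine min_le_min ?_ le_rfl
      rw [le_div_iff₀ hn0]
      exact (hok t).kk
    exact lt_of_lt_of_le (lt_min hκ1 (by linarith)) h1
  have ha : ∀ᶠ t in atTop, ∀ i, 1 < β i → (d t).n < (d t).x i := by
    rw [eventually_all]
    intro i
    by_cases hi : 1 < β i
    · filter_upwards [(hβ i).eventually (lt_mem_nhds hi), hnt.eventually_ge_atTop 1] with t h1 ht _
      have hn0 : (0 : ℝ) < (d t).n := by exact_mod_cast ht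
      have h2 := (lt_min_iff.1 h1).1
      rw [lt_div_iff₀ hn0, one_mul] at h2
      exact_mod_cast h2
    · exact Eventually.of_forall fun t h => absurd h hi
  have hb : ∀ᶠ t in atTop, ∀ i, β i ≤ 1 → ((d t).x i : ℝ) + (d t).c * (d t).n ≤ (1 + δ) * (d t).n := by
    rw [eventually_all]
    intro i
    by_cases hi : β i ≤ 1
    · have h1 := (uncap (hβ i) (by linarith)).1.add hc
      rw [add_zero] at h1
      filter_upwards [h1.eventually (gt_mem_nhds (by linarith : β i < 1 + δ)),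
        hnt.eventually_ge_atTop 1] with t h2 ht _
      have hn0 : (0 : ℝ) < (d t).n := by exact_mod_cast ht
      have h3 := mul_le_mul_of_nonneg_right h2.le hn0.le
      have h4 : (((d t).x i : ℝ) / (d t).n + (d t).c) * (d t).n = (d t).x i + (d t).c * (d t).n := by
        field_simp
      rwa [h4] at h3
    · exact Eventually.of_forall fun t h => absurd h hi
  -- a prime which works for infinitely many `t`
  have hex : ∃ᶠ t in atTop, ∃ p ∈ Finset.range (L + 1), p.Prime ∧ R1 (d t) B β p ≠ 0 := by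
    refine (ha.and hb).frequently.mono ?_
    rintro t ⟨h1, h2⟩
    obtain ⟨p, hp, hpL, hR⟩ := exists_prime (hok t) (by omega) h1 h2 hL
    exact ⟨p, Finset.mem_range.2 (by omega), hp, hR⟩
  have hex2 : ∃ p ∈ Finset.range (L + 1), ∃ᶠ t in atTop, p.Prime ∧ R1 (d t) B β p ≠ 0 := by
    by_contra hcon
    have h1 : ∀ᶠ t in atTop, ∀ p ∈ Finset.range (L + 1), ¬ (p.Prime ∧ R1 (d t) B β p ≠ 0) := by
      refine (Finset.eventually_all _).2 fun p hp => ?_
      have h2 : ¬ ∃ᶠ t in atTop, p.Prime ∧ R1 (d t) B β p ≠ 0 := fun h => hcon ⟨p, hp, h⟩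
      exact Filter.not_frequently.1 h2
    obtain ⟨t, ⟨p, hp, h2⟩, h3⟩ := (hex.and_eventually h1).exists
    exact h3 p hp h2
  obtain ⟨M, hML, hfr⟩ := hex2
  rw [Finset.mem_range] at hML
  obtain ⟨φ, hφ, hφR⟩ := Filter.extraction_of_frequently_atTop hfr
  have hM : M.Prime := (hφR 0).1
  have hφt := hφ.tendsto_atTop
  have hfreq := freq_zero (d := fun t => d (φ t)) (M := M) (K := L) hS hT (hn.comp hφ) (fun t => hok _)
    (hc.comp hφt) (fun i => (hβ i).comp hφt) (hκ.comp hφt) hM.two_le (by omega)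
    (lt_of_le_of_lt (by omega : M ≤ L) Nat.lt_two_pow_self) hβ1 hβκ
  have hbig : ∀ᶠ t in atTop, 2 * H < 2 ^ (d t).n := by
    have h1 : Tendsto (fun n : ℕ => 2 ^ n) atTop atTop := tendsto_pow_atTop_atTop_of_one_lt (by norm_num)
    exact (h1.comp hnt).eventually_gt_atTop _
  obtain ⟨t, h1, h2, h3⟩ := (hfreq.and_eventually ((hφt.eventually hb).and (hφt.eventually hbig))).exists
  exact sum_ne (hok _) hM hβ1 hκ' (hφR t).2 (R1_lt (hok _) hM.two_le h2 h3) h1

theorem main2 (hS : SMALL) (hT : TAIL) (H L s : ℕ) (hH : 1 ≤ H) (hL : H < primorial L) (δ κ1 : ℝ)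
    (hδ : 0 < δ) (hκ1 : 1 < κ1) :
    ∃ c : ℝ, 0 < c ∧ ∃ n0 : ℕ, ∀ n k : ℕ, n0 ≤ n → κ1 * n ≤ k →
      ∀ (A : Finset ℕ) (x : Fin s → ℕ) (e : ℕ → ℤ), n ∈ A → e n ≠ 0 → (∀ a ∈ A, n ≤ a ∧ a < k) →
      (∀ a ∈ A, 2 ^ a ≤ (L + 1) ^ n → ∃ i, x i ≤ a ∧ (a : ℝ) ≤ x i + c * n) →
      (∀ a ∈ A, (a : ℝ) ≤ (1 + δ) * n → |e a| ≤ H) → (∀ a ∈ A, |(e a : ℝ)| ≤ (1 + c) ^ n) →
      (((L + 1 : ℕ) : ℝ) ^ n)⁻¹ < |∑ a ∈ A, (e a : ℝ) * dz a (k - a)| := by
  classical
  have hL2 : 2 ≤ L := by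
    by_contra hcon
    have h1 : L = 0 ∨ L = 1 := by omega
    rcases h1 with rfl | rfl
    · rw [primorial_zero] at hL
      omega
    · rw [primorial_one] at hL
      omega
  by_contra hcon
  push Not at hcon
  have h1 : ∀ t : ℕ, ∃ D : Dat s, t ≤ D.n ∧ D.c = 1 / ((t : ℝ) + 1) ∧ Ok (L + 1) H δ κ1 D := by
    intro t
    have ht0 : (0 : ℝ) < 1 / ((t : ℝ) + 1) := by positivity
    obtain ⟨n, k, hn, hk, A, x, e, h1, h2, h3, h4, h5, h6, h7⟩ := hcon (1 / ((t : ℝ) + 1)) ht0 t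
    set c : ℝ := 1 / ((t : ℝ) + 1) with hc
    have hx : ∀ i : Fin s, ∃ y ∈ A, ∀ a ∈ A, x i ≤ a → (a : ℝ) ≤ x i + c * n → y ≤ a ∧ (a : ℝ) ≤ y + c * n := by
      intro i
      by_cases hne : (A.filter fun a => x i ≤ a ∧ (a : ℝ) ≤ x i + c * n).Nonempty
      · set y := (A.filter fun a => x i ≤ a ∧ (a : ℝ) ≤ x i + c * n).min' hne with hy
        have hymem := Finset.min'_mem _ hne
        rw [mem_filter] at hymem
        refine ⟨y, hymem.1, fun a ha h8 h9 => ⟨Finset.min'_le _ _ (mem_filter.2 ⟨ha, h8, h9⟩), ?_⟩⟩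
        have h10 : (x i : ℝ) ≤ y := by exact_mod_cast hymem.2.1
        linarith
      · refine ⟨n, h1, fun a ha h8 h9 => ?_⟩
        exact absurd ⟨a, mem_filter.2 ⟨ha, h8, h9⟩⟩ hne
    choose y hyA hy using hx
    refine ⟨⟨n, k, A, y, e, c⟩, hn, rfl, ?_⟩
    refine ⟨ht0, ?_, h1, h2, h3, hyA, ?_, h5, h6, hk, h7⟩
    · show c ≤ 1
      rw [hc, div_le_one (by positivity)]
      have : (0 : ℝ) ≤ t := Nat.cast_nonneg _
      linarith
    · intro a ha h8
      obtain ⟨i, h9, h10⟩ := h4 a ha h8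
      exact ⟨i, hy i a ha h9 h10⟩
  choose D hDn hDc hok using h1
  have hnt : Tendsto (fun t => (D t).n) atTop atTop := tendsto_atTop_mono hDn tendsto_id
  obtain ⟨φ1, hφ1, hφ1'⟩ := strictMono_subseq_of_tendsto_atTop hnt
  have hcompact : IsCompact ((Set.pi Set.univ fun _ : Fin s => Set.Icc (0 : ℝ) L) ×ˢ Set.Icc (0 : ℝ) L) :=
    (isCompact_univ_pi fun _ => isCompact_Icc).prod isCompact_Icc
  obtain ⟨⟨β, κ⟩, -, φ, hφ, hlim⟩ := hcompact.tendsto_subseq
    (x := fun t => ((fun i : Fin s => min (((D (φ1 t)).x i : ℝ) / (D (φ1 t)).n) L),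
      min (((D (φ1 t)).k : ℝ) / (D (φ1 t)).n) L)) (by
      intro t
      refine ⟨fun i _ => ⟨?_, min_le_right _ _⟩, ?_, min_le_right _ _⟩
      · simp only
        positivity
      · simp only
        positivity)
  have hDc0 : Tendsto (fun t => (D t).c) atTop (𝓝 0) := by
    simp_rw [hDc]
    exact tendsto_one_div_add_atTop_nhds_zero_nat
  rw [Prod.tendsto_iff] at hlim
  refine seq_false (d := fun t => D (φ1 (φ t))) (β := β) (κ := κ) hS hT hL2 hL le_rfl hδ hκ1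
    (hφ1'.comp hφ) (fun t => hok _) (hDc0.comp (hφ1.comp hφ).tendsto_atTop) ?_ hlim.2
  intro i
  exact (tendsto_pi_nhds.1 hlim.1) i

end Pool.Agent.NH24.EP
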