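import Pool.Agent.NH24.EP.Stm
import Pool.Agent.R333.SubR

/-!
# Small sums of `S`-units with subexponential coefficients (helper26, project EP)
-/

set_option autoImplicit false

open Filter Topology

namespace Pool.Agent.NH24.EP.Small

/-- a constant is subexponential -/
theorem const_small {b : ℕ} (hb : 2 ≤ b) {φ : ℕ → ℕ} (hφ : StrictMono φ) (c : ℝ) {ε : ℝ}
    (hε : 0 < ε) : ∀ᶠ t in atTop, c ≤ (b : ℝ) ^ (ε * φ t) := by
  have hb1 : (1 : ℝ) < b := by exact_mod_cast (by omega : 1 < b)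
  have h1 : Tendsto (fun t : ℕ => ε * (φ t : ℝ)) atTop atTop :=
    (tendsto_natCast_atTop_atTop.comp hφ.tendsto_atTop).const_mul_atTop hε
  have h2 : Tendsto (fun t : ℕ => (b : ℝ) ^ (ε * (φ t : ℝ))) atTop atTop := by
    have h3 : Tendsto (fun x : ℝ => (b : ℝ) ^ x) atTop atTop :=
      tendsto_rpow_atTop_of_base_gt_one b hb1
    exact h3.comp h1
  exact h2.eventually_ge_atTop c

/-- the statement for `r` summands -/
def St (b κ r : ℕ) : Prop :=
  ∀ (φ : ℕ → ℕ) (D : ℕ → Fin r → ℕ) (q : ℕ → Fin r → ℤ) (a : Fin r → ℝ) (a0 : ℝ),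
    StrictMono φ → (∀ᶠ t in atTop, ∀ l, D t l ∣ b ^ (κ * φ t)) → (∀ l, a0 < a l) →
    (∀ l, Tendsto (fun t => Real.log (D t l) / (φ t * Real.log b)) atTop (𝓝 (a l))) →
    (∀ l, ∀ ε : ℝ, 0 < ε → ∀ᶠ t in atTop, |(q t l : ℝ)| ≤ (b : ℝ) ^ (ε * φ t)) →
    (∀ᶠ t in atTop, |∑ l, (q t l : ℝ) * D t l| ≤ (b : ℝ) ^ (a0 * φ t)) →
    ∃ᶠ t in atTop, ∑ l, q t l * (D t l : ℤ) = 0

/-- one coefficient vanishes infinitely often -/
theorem caseA {b κ r : ℕ} (ih : St b κ r)
    (φ : ℕ → ℕ) (D : ℕ → Fin (r + 1) → ℕ) (q : ℕ → Fin (r + 1) → ℤ) (a : Fin (r + 1) → ℝ)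
    (a0 : ℝ) (hφ : StrictMono φ) (hD : ∀ᶠ t in atTop, ∀ l, D t l ∣ b ^ (κ * φ t))
    (ha : ∀ l, a0 < a l)
    (hlim : ∀ l, Tendsto (fun t => Real.log (D t l) / (φ t * Real.log b)) atTop (𝓝 (a l)))
    (hq : ∀ l, ∀ ε : ℝ, 0 < ε → ∀ᶠ t in atTop, |(q t l : ℝ)| ≤ (b : ℝ) ^ (ε * φ t))
    (hs : ∀ᶠ t in atTop, |∑ l, (q t l : ℝ) * D t l| ≤ (b : ℝ) ^ (a0 * φ t))
    (l : Fin (r + 1)) (hl : ∃ᶠ t in atTop, q t l = 0) :
    ∃ᶠ t in atTop, ∑ l, q t l * (D t l : ℤ) = 0 := by
  obtain ⟨ψ, hψ, hz⟩ := Filter.extraction_of_frequently_atTop hl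
  have ht := hψ.tendsto_atTop
  have h := ih (φ ∘ ψ) (fun t i => D (ψ t) (l.succAbove i)) (fun t i => q (ψ t) (l.succAbove i))
    (fun i => a (l.succAbove i)) a0 (hφ.comp hψ)
    ((ht.eventually hD).mono fun t h i => h _) (fun i => ha _)
    (fun i => (hlim (l.succAbove i)).comp ht)
    (fun i ε hε => ht.eventually (hq (l.succAbove i) ε hε))
    (by
      filter_upwards [ht.eventually hs] with t h
      rw [Fin.sum_univ_succAbove _ l, hz t, Int.cast_zero, zero_mul, zero_add] at h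
      exact h)
  refine ht.frequently (h.mono ?_)
  intro t h1
  rw [Fin.sum_univ_succAbove _ l, hz t, zero_mul, zero_add]
  exact h1

/-- the subspace theorem: a linear relation -/
theorem relation {b κ r : ℕ} (hb : 2 ≤ b)
    (φ : ℕ → ℕ) (D : ℕ → Fin (r + 1) → ℕ) (q : ℕ → Fin (r + 1) → ℤ) (a : Fin (r + 1) → ℝ)
    (a0 : ℝ) (hφ : StrictMono φ) (hD : ∀ᶠ t in atTop, ∀ l, D t l ∣ b ^ (κ * φ t))
    (ha : ∀ l, a0 < a l)
    (hlim : ∀ l, Tendsto (fun t => Real.log (D t l) / (φ t * Real.log b)) atTop (𝓝 (a l)))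
    (hq : ∀ l, ∀ ε : ℝ, 0 < ε → ∀ᶠ t in atTop, |(q t l : ℝ)| ≤ (b : ℝ) ^ (ε * φ t))
    (hs : ∀ᶠ t in atTop, |∑ l, (q t l : ℝ) * D t l| ≤ (b : ℝ) ^ (a0 * φ t))
    (hne : ∀ᶠ t in atTop, ∀ l, q t l ≠ 0) :
    ∃ y : Fin (r + 1) → ℤ, y ≠ 0 ∧ ∃ᶠ t in atTop, ∑ l, y l * (q t l * (D t l : ℤ)) = 0 := by
  classical
  have hb1 : (1 : ℝ) < b := by exact_mod_cast (by omega : 1 < b)
  have hb0 : (0 : ℝ) < b := by linarith
  have hL : 0 < Real.log b := Real.log_pos hb1
  obtain ⟨ε, hε⟩ : ∃ ε : ℝ, ε = (a (Fin.last r) - a0) / (2 * r + 4) := ⟨_, rfl⟩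
  have hε0 : 0 < ε := by
    rw [hε]
    have := ha (Fin.last r)
    exact div_pos (by linarith) (by positivity)
  have hε1 : (2 * r + 4) * ε = a (Fin.last r) - a0 := by
    rw [hε]
    field_simp
  have h1 : ∀ᶠ t in atTop, ∀ l, |(q t l : ℝ)| ≤ (b : ℝ) ^ (ε / 2 * φ t) :=
    eventually_all.2 fun l => hq l (ε / 2) (by positivity)
  have h2 : ∀ᶠ t in atTop, ∀ l, (a l - ε) * (φ t * Real.log b) ≤ Real.log (D t l) ∧
      Real.log (D t l) ≤ (a l + ε / 2) * (φ t * Real.log b) := by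
    refine eventually_all.2 fun l => ?_
    have e1 := (hlim l).eventually (lt_mem_nhds (show a l - ε < a l by linarith))
    have e2 := (hlim l).eventually (gt_mem_nhds (show a l < a l + ε / 2 by linarith))
    filter_upwards [e1, e2, eventually_ge_atTop 1] with t h3 h4 h5
    have h6 : 1 ≤ φ t := h5.trans (hφ.id_le t)
    have h7 : (0 : ℝ) < φ t := by exact_mod_cast h6
    have h8 : 0 < (φ t : ℝ) * Real.log b := mul_pos h7 hL
    rw [lt_div_iff₀ h8] at h3
    rw [div_lt_iff₀ h8] at h4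
    exact ⟨h3.le, h4.le⟩
  -- the good indices
  set G : ℕ → Prop := fun t => (∀ l, D t l ∣ b ^ (κ * φ t)) ∧ (∀ l, q t l ≠ 0) ∧
    (∀ l, |(q t l : ℝ)| ≤ (b : ℝ) ^ (ε / 2 * φ t)) ∧
    (∀ l, (a l - ε) * (φ t * Real.log b) ≤ Real.log (D t l) ∧
      Real.log (D t l) ≤ (a l + ε / 2) * (φ t * Real.log b)) ∧
    |∑ l, (q t l : ℝ) * D t l| ≤ (b : ℝ) ^ (a0 * φ t) with hG
  have hGe : ∀ᶠ t in atTop, G t := by
    filter_upwards [hD, hne, h1, h2, hs] with t g1 g2 g3 g4 g5
    exact ⟨g1, g2, g3, g4, g5⟩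
  have hinv : ∀ t, Function.invFun φ (φ t) = t := Function.leftInverse_invFun hφ.injective
  have hPf : ∃ᶠ m in atTop, ∃ t, φ t = m ∧ G t := by
    refine hφ.tendsto_atTop.frequently (hGe.frequently.mono ?_)
    intro t ht
    exact ⟨t, rfl, ht⟩
  have hDne : ∀ t l, G t → D t l ≠ 0 := by
    intro t l hg h0
    have := hg.1 l
    rw [h0, zero_dvd_iff] at this
    have hbn : b ≠ 0 := by omega
    exact pow_ne_zero _ hbn this
  obtain ⟨y, hy, hfr⟩ := Pool.Agent.R333.SubR.sub_real (n := r + 1) (by omega) b hb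
    (fun i j => if i = Fin.last r then 1 else if i = j then 1 else 0)
    (by
      intro i j
      show IsAlgebraic ℚ (if i = Fin.last r then (1 : ℝ) else if i = j then 1 else 0)
      split_ifs
      · exact isAlgebraic_one
      · exact isAlgebraic_one
      · exact isAlgebraic_zero)
    (by
      intro i j hij
      have e1 : i ≠ Fin.last r := by
        rintro rfl
        exact absurd (Fin.le_last j) (not_le.2 hij)
      show (if i = Fin.last r then (1 : ℝ) else if i = j then 1 else 0) = 0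
      rw [if_neg e1, if_neg hij.ne])
    (by
      intro i
      show (if i = Fin.last r then (1 : ℝ) else if i = i then 1 else 0) ≠ 0
      rw [if_pos rfl, ite_self]
      exact one_ne_zero)
    (fun m => ∃ t, φ t = m ∧ G t) hPf
    (fun m l => q (Function.invFun φ m) l * (D (Function.invFun φ m) l : ℤ))
    (by
      rintro m ⟨t, rfl, hg⟩ h0
      have e := congrFun h0 0
      simp only [hinv, Pi.zero_apply, mul_eq_zero] at e
      rcases e with e | e
      · exact hg.2.1 0 e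
      · exact hDne t 0 hg (by exact_mod_cast e))
    (fun m l => D (Function.invFun φ m) l) κ
    (by
      rintro m l ⟨t, rfl, hg⟩
      simp only [hinv]
      exact hg.1 l)
    (by
      rintro m l ⟨t, rfl, hg⟩
      exact dvd_mul_left _ _)
    (fun l => if l = Fin.last r then a0 else a l + ε) 1 one_pos
    (by
      rintro m l ⟨t, rfl, hg⟩
      simp only [hinv]
      by_cases hl : l = Fin.last r
      · rw [if_pos hl, one_mul]
        have e : ∀ j, (if l = Fin.last r then (1 : ℝ) else if l = j then 1 else 0) *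
            ((q t j * (D t j : ℤ) : ℤ) : ℝ) = (q t j : ℝ) * D t j := by
          intro j
          rw [if_pos hl]
          push_cast
          ring
        rw [Finset.sum_congr rfl fun j _ => e j]
        exact hg.2.2.2.2
      · rw [if_neg hl, one_mul]
        have e : ∑ j, (if l = Fin.last r then (1 : ℝ) else if l = j then 1 else 0) *
            ((q t j * (D t j : ℤ) : ℤ) : ℝ) = (q t l : ℝ) * D t l := by
          rw [Finset.sum_eq_single l]
          · rw [if_neg hl, if_pos rfl]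
            push_cast
            ring
          · intro j _ hj
            rw [if_neg hl, if_neg (Ne.symm hj), zero_mul]
          · intro h
            exact absurd (Finset.mem_univ l) h
        rw [e, abs_mul, Nat.abs_cast]
        have hDp : (0 : ℝ) < D t l := by
          exact_mod_cast Nat.pos_of_ne_zero (hDne t l hg)
        have e1 : (D t l : ℝ) ≤ (b : ℝ) ^ ((a l + ε / 2) * φ t) := by
          rw [← Real.log_le_log_iff hDp (Real.rpow_pos_of_pos hb0 _), Real.log_rpow hb0]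
          have := (hg.2.2.2.1 l).2
          linarith
        calc |(q t l : ℝ)| * D t l ≤ (b : ℝ) ^ (ε / 2 * φ t) * (b : ℝ) ^ ((a l + ε / 2) * φ t) :=
              mul_le_mul (hg.2.2.1 l) e1 hDp.le (Real.rpow_nonneg hb0.le _)
          _ = (b : ℝ) ^ ((a l + ε) * φ t) := by
              rw [← Real.rpow_add hb0]
              congr 1
              ring)
    ε hε0
    (by
      rintro m ⟨t, rfl, hg⟩
      simp only [hinv]
      have e1 : ∑ l, (a l - ε) * (φ t * Real.log b) ≤ ∑ l, Real.log (D t l) :=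
        Finset.sum_le_sum fun l _ => (hg.2.2.2.1 l).1
      refine le_trans ?_ e1
      rw [← Finset.sum_mul, mul_assoc]
      refine mul_le_mul_of_nonneg_right ?_ (by positivity)
      have e2 : ∑ l, (if l = Fin.last r then a0 else a l + ε) = ∑ i : Fin r, a i.castSucc +
          r * ε + a0 := by
        rw [Fin.sum_univ_castSucc, if_pos rfl]
        have e3 : ∀ i : Fin r, (if i.castSucc = Fin.last r then a0 else a i.castSucc + ε) =
            a i.castSucc + ε := fun i => if_neg (Fin.castSucc_lt_last i).ne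
        rw [Finset.sum_congr rfl fun i _ => e3 i, Finset.sum_add_distrib, Finset.sum_const,
          Finset.card_univ, Fintype.card_fin, nsmul_eq_mul]
      have e4 : ∑ l, (a l - ε) = ∑ i : Fin r, a i.castSucc + a (Fin.last r) - (r + 1) * ε := by
        rw [Finset.sum_sub_distrib, Fin.sum_univ_castSucc, Finset.sum_const, Finset.card_univ,
          Fintype.card_fin, nsmul_eq_mul]
        push_cast
        ring
      rw [e2, e4]
      linarith)
  refine ⟨y, hy, ?_⟩
  rw [Filter.frequently_atTop] at hfr ⊢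
  intro N
  obtain ⟨m, hm, ⟨t, rfl, hg⟩, hrel⟩ := hfr (φ N)
  refine ⟨t, (hφ.le_iff_le).1 hm, ?_⟩
  simp only [hinv] at hrel
  exact hrel

theorem step {b κ r : ℕ} (hb : 2 ≤ b) (ih : St b κ r) : St b κ (r + 1) := by
  intro φ D q a a0 hφ hD ha hlim hq hs
  have hb1 : (1 : ℝ) < b := by exact_mod_cast (by omega : 1 < b)
  have hb0 : (0 : ℝ) < b := by linarith
  by_cases hA : ∃ l, ∃ᶠ t in atTop, q t l = 0
  · obtain ⟨l, hl⟩ := hA
    exact caseA ih φ D q a a0 hφ hD ha hlim hq hs l hl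
  · push Not at hA
    have hne : ∀ᶠ t in atTop, ∀ l, q t l ≠ 0 := by
      refine eventually_all.2 fun l => ?_
      have := hA l
      exact this
    obtain ⟨y, hy, hfr⟩ := relation hb φ D q a a0 hφ hD ha hlim hq hs hne
    obtain ⟨l0, hl0⟩ : ∃ l0, y l0 ≠ 0 := by
      by_contra h
      push Not at h
      exact hy (funext h)
    obtain ⟨ψ, hψ, hz⟩ := Filter.extraction_of_frequently_atTop hfr
    have ht := hψ.tendsto_atTop
    have hφψ : StrictMono (φ ∘ ψ) := hφ.comp hψ
    -- the new exponent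
    obtain ⟨a1, ha1, ha2⟩ : ∃ a1 : ℝ, a0 < a1 ∧ ∀ l, a1 < a l := by
      have e1 : ∀ᶠ s in 𝓝[>] a0, ∀ l, s < a l :=
        eventually_all.2 fun l => (eventually_lt_nhds (ha l)).filter_mono nhdsWithin_le_nhds
      obtain ⟨s, hs1, hs2⟩ := (e1.and self_mem_nhdsWithin).exists
      exact ⟨s, hs2, hs1⟩
    -- the identity
    have key : ∀ t, ∑ i, ((y l0 - y (l0.succAbove i)) * q (ψ t) (l0.succAbove i)) *
        (D (ψ t) (l0.succAbove i) : ℤ) = y l0 * ∑ l, q (ψ t) l * (D (ψ t) l : ℤ) := by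
      intro t
      have h1 : ∑ l, (y l0 - y l) * (q (ψ t) l * (D (ψ t) l : ℤ)) =
          y l0 * ∑ l, q (ψ t) l * (D (ψ t) l : ℤ) := by
        simp only [sub_mul]
        rw [Finset.sum_sub_distrib, hz t, sub_zero, Finset.mul_sum]
      rw [← h1, Fin.sum_univ_succAbove _ l0, sub_self, zero_mul, zero_add]
      exact Finset.sum_congr rfl fun i _ => by ring
    have h := ih (φ ∘ ψ) (fun t i => D (ψ t) (l0.succAbove i))
      (fun t i => (y l0 - y (l0.succAbove i)) * q (ψ t) (l0.succAbove i))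
      (fun i => a (l0.succAbove i)) a1 hφψ
      ((ht.eventually hD).mono fun t h i => h _) (fun i => ha2 _)
      (fun i => (hlim (l0.succAbove i)).comp ht)
      (by
        intro i ε hε
        have e1 := const_small hb hφψ |((y l0 - y (l0.succAbove i) : ℤ) : ℝ)| (half_pos hε)
        have e2 := ht.eventually (hq (l0.succAbove i) (ε / 2) (half_pos hε))
        filter_upwards [e1, e2] with t e3 e4
        rw [Int.cast_mul, abs_mul]
        calc |((y l0 - y (l0.succAbove i) : ℤ) : ℝ)| * |(q (ψ t) (l0.succAbove i) : ℝ)| ≤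
            (b : ℝ) ^ (ε / 2 * ((φ ∘ ψ) t : ℕ)) * (b : ℝ) ^ (ε / 2 * ((φ ∘ ψ) t : ℕ)) :=
              mul_le_mul e3 e4 (abs_nonneg _) (Real.rpow_nonneg hb0.le _)
          _ = (b : ℝ) ^ (ε * ((φ ∘ ψ) t : ℕ)) := by
              rw [← Real.rpow_add hb0]
              congr 1
              ring)
      (by
        have e1 := const_small hb hφψ |((y l0 : ℤ) : ℝ)| (sub_pos.2 ha1)
        filter_upwards [e1, ht.eventually hs] with t e3 e4
        have e5 : ∑ i, ((((y l0 - y (l0.succAbove i)) * q (ψ t) (l0.succAbove i) : ℤ)) : ℝ) *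
            D (ψ t) (l0.succAbove i) = (y l0 : ℝ) * ∑ l, (q (ψ t) l : ℝ) * D (ψ t) l := by
          have := congrArg (fun z : ℤ => (z : ℝ)) (key t)
          push_cast at this ⊢
          exact this
        rw [e5, abs_mul]
        calc |((y l0 : ℤ) : ℝ)| * |∑ l, (q (ψ t) l : ℝ) * D (ψ t) l| ≤
            (b : ℝ) ^ ((a1 - a0) * ((φ ∘ ψ) t : ℕ)) * (b : ℝ) ^ (a0 * (φ (ψ t) : ℕ)) :=
              mul_le_mul e3 e4 (abs_nonneg _) (Real.rpow_nonneg hb0.le _)
          _ = (b : ℝ) ^ (a1 * ((φ ∘ ψ) t : ℕ)) := by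
              rw [← Real.rpow_add hb0]
              congr 1
              show (a1 - a0) * (φ (ψ t) : ℝ) + a0 * (φ (ψ t) : ℝ) = a1 * (φ (ψ t) : ℝ)
              ring)
    refine ht.frequently (h.mono ?_)
    intro t h1
    have h2 := key t
    rw [h2] at h1
    rcases mul_eq_zero.1 h1 with h3 | h3
    · exact absurd h3 hl0
    · exact h3

theorem all (b κ : ℕ) (hb : 2 ≤ b) : ∀ r, St b κ r := by
  intro r
  induction r with
  | zero =>
    intro φ D q a a0 _ _ _ _ _ _
    refine Filter.Frequently.of_forall ?_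
    intro t
    exact Finset.sum_of_isEmpty _
  | succ r ih => exact step hb ih

end Pool.Agent.NH24.EP.Small

namespace Pool.Agent.NH24.EP

theorem t_small : SMALL := by
  intro r b κ φ D q a a0 hb hφ hD ha hlim hq hs
  exact Small.all b κ hb r φ D q a a0 hφ hD ha hlim hq hs

end Pool.Agent.NH24.EP
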