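import Pool.Agent.NH24.EP.Stm

/-!
# Truncation of double zeta values (helper93, job EP-2)
-/

set_option autoImplicit false

open Filter Topology

namespace Pool.Agent.NH24.EP

namespace TailAux

lemma summable_inv_sq : Summable fun m : ℕ => 1 / ((m + 1 : ℕ) : ℝ) ^ 2 := by
  have h1 : Summable fun n : ℕ => 1 / (n : ℝ) ^ 2 := (hasSum_zeta_two).summable
  exact (summable_nat_add_iff 1).2 h1

lemma sum_inv_sq : (∑' m : ℕ, 1 / ((m + 1 : ℕ) : ℝ) ^ 2) ≤ 2 := by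
  have h1 : HasSum (fun n : ℕ => 1 / (n : ℝ) ^ 2) (Real.pi ^ 2 / 6) := hasSum_zeta_two
  have h2 : (∑' m : ℕ, 1 / ((m + 1 : ℕ) : ℝ) ^ 2) = Real.pi ^ 2 / 6 := by
    have h3 := h1.summable.tsum_eq_zero_add
    rw [h1.tsum_eq] at h3
    simp only [Nat.cast_zero] at h3
    rw [h3]
    norm_num
  rw [h2]
  have h4 := Real.pi_lt_d2
  have h5 := Real.pi_pos
  nlinarith

/-- the terms of the series -/
noncomputable def u (a q m : ℕ) : ℝ := (∑ n ∈ Finset.Ico 1 (m + 1), 1 / (n : ℝ) ^ q) / ((m + 1 : ℕ) : ℝ) ^ a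

lemma u_nonneg (a q m : ℕ) : 0 ≤ u a q m := by
  unfold u
  exact div_nonneg (Finset.sum_nonneg fun n _ => by positivity) (by positivity)

lemma inner_le (q m : ℕ) : ∑ n ∈ Finset.Ico 1 (m + 1), 1 / (n : ℝ) ^ q ≤ ((m + 1 : ℕ) : ℝ) := by
  calc ∑ n ∈ Finset.Ico 1 (m + 1), 1 / (n : ℝ) ^ q ≤ ∑ n ∈ Finset.Ico 1 (m + 1), (1 : ℝ) := by
        refine Finset.sum_le_sum fun n hn => ?_
        have h1 : (1 : ℝ) ≤ n := by exact_mod_cast (Finset.mem_Ico.1 hn).1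
        rw [div_le_one (by positivity)]
        exact one_le_pow₀ h1
    _ = (m : ℝ) := by simp
    _ ≤ ((m + 1 : ℕ) : ℝ) := by push_cast; linarith

/-- the key bound -/
lemma u_le {a : ℕ} (ha : 3 ≤ a) (q M m : ℕ) :
    u a q (m + M) ≤ ((M : ℝ) + 1) ^ 3 / ((M : ℝ) + 1) ^ a * (1 / ((m + 1 : ℕ) : ℝ) ^ 2) := by
  obtain ⟨b, rfl⟩ : ∃ b, a = 3 + b := ⟨a - 3, by omega⟩
  have hM : (0 : ℝ) < (M : ℝ) + 1 := by positivity
  have hN : (0 : ℝ) < ((m + M + 1 : ℕ) : ℝ) := by positivity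
  have e1 : ((M : ℝ) + 1) ^ 3 / ((M : ℝ) + 1) ^ (3 + b) = 1 / ((M : ℝ) + 1) ^ b := by
    rw [pow_add]
    field_simp
  have h1 : u (3 + b) q (m + M) ≤ ((m + M + 1 : ℕ) : ℝ) / ((m + M + 1 : ℕ) : ℝ) ^ (3 + b) := by
    unfold u
    exact div_le_div_of_nonneg_right (inner_le q (m + M)) (by positivity)
  have e2 : ((m + M + 1 : ℕ) : ℝ) / ((m + M + 1 : ℕ) : ℝ) ^ (3 + b) =
      1 / ((m + M + 1 : ℕ) : ℝ) ^ b * (1 / ((m + M + 1 : ℕ) : ℝ) ^ 2) := by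
    rw [pow_add]
    field_simp
  rw [e1]
  rw [e2] at h1
  refine h1.trans ?_
  have h2 : 1 / ((m + M + 1 : ℕ) : ℝ) ^ b ≤ 1 / ((M : ℝ) + 1) ^ b := by
    apply one_div_le_one_div_of_le (by positivity)
    apply pow_le_pow_left₀ hM.le
    push_cast
    have : (0 : ℝ) ≤ m := Nat.cast_nonneg m
    linarith
  have h3 : 1 / ((m + M + 1 : ℕ) : ℝ) ^ 2 ≤ 1 / ((m + 1 : ℕ) : ℝ) ^ 2 := by
    apply one_div_le_one_div_of_le (by positivity)
    apply pow_le_pow_left₀ (by positivity)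
    push_cast
    have : (0 : ℝ) ≤ M := Nat.cast_nonneg M
    linarith
  exact mul_le_mul h2 h3 (by positivity) (by positivity)

lemma summable_shift {a : ℕ} (ha : 3 ≤ a) (q M : ℕ) : Summable fun m => u a q (m + M) :=
  Summable.of_nonneg_of_le (fun m => u_nonneg a q (m + M)) (fun m => u_le ha q M m)
    (summable_inv_sq.mul_left _)

end TailAux

open TailAux in
theorem t_tail : TAIL := by
  intro M a q _ ha
  have hs : Summable (u a q) := by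
    have := summable_shift ha q 0
    simpa using this
  have e1 : ∑ m ∈ Finset.Icc 1 M, ∑ n ∈ Finset.Ico 1 m, 1 / ((m : ℝ) ^ a * (n : ℝ) ^ q) =
      ∑ m ∈ Finset.range M, u a q m := by
    rw [Finset.range_eq_Ico]
    have h1 : Finset.Icc 1 M = Finset.Ico (0 + 1) (M + 1) := by
      ext x
      simp only [Finset.mem_Icc, Finset.mem_Ico]
      omega
    rw [h1, ← Finset.sum_Ico_add']
    refine Finset.sum_congr rfl fun m _ => ?_
    unfold u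
    rw [Finset.sum_div]
    refine Finset.sum_congr rfl fun n _ => ?_
    rw [div_div, mul_comm]
  have e2 : dz a q = ∑ m ∈ Finset.range M, u a q m + ∑' m, u a q (m + M) := by
    rw [hs.sum_add_tsum_nat_add M]
    rfl
  rw [e1, e2, add_sub_cancel_left, abs_of_nonneg (tsum_nonneg fun m => u_nonneg a q (m + M))]
  calc ∑' m, u a q (m + M) ≤ ∑' m : ℕ, ((M : ℝ) + 1) ^ 3 / ((M : ℝ) + 1) ^ a * (1 / ((m + 1 : ℕ) : ℝ) ^ 2) :=
        (summable_shift ha q M).tsum_le_tsum (fun m => u_le ha q M m) (summable_inv_sq.mul_left _)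
    _ = ((M : ℝ) + 1) ^ 3 / ((M : ℝ) + 1) ^ a * ∑' m : ℕ, (1 / ((m + 1 : ℕ) : ℝ) ^ 2) := tsum_mul_left
    _ ≤ ((M : ℝ) + 1) ^ 3 / ((M : ℝ) + 1) ^ a * 2 := mul_le_mul_of_nonneg_left sum_inv_sq (by positivity)
    _ = 2 * ((M : ℝ) + 1) ^ 3 / ((M : ℝ) + 1) ^ a := by ring

end Pool.Agent.NH24.EP
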