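import Pool.Agent.NH24.EP.E
import Pool.Agent.NH24.EP.Small
import Pool.Agent.NH24.EP.Tail
import Pool.Agent.NH24.SQ.D

/-!
# Bounded coefficients, boundedly many short intervals: all weights
-/

set_option autoImplicit false

open Finset Filter Topology

namespace Pool.Agent.NH24.EP

lemma pr_one (a q : ℕ) :
    (∑ m ∈ Finset.Icc (1 : ℕ) 1, ∑ n ∈ Finset.Ico 1 m, 1 / ((m : ℝ) ^ a * (n : ℝ) ^ q)) = 0 := by
  rw [Finset.Icc_self, sum_singleton, Finset.Ico_self, sum_empty]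

lemma dz_small (hT : TAIL) {a q : ℕ} (ha : 3 ≤ a) : |dz a q| ≤ 16 * (1 / ((2 : ℕ) : ℝ) ^ a) := by
  have h := hT 1 a q le_rfl ha
  rw [pr_one, sub_zero] at h
  refine h.trans (le_of_eq ?_)
  push_cast
  norm_num
  ring

lemma zeta_ge {k : ℕ} (hk : 2 ≤ k) : 1 ≤ ∑' m : ℕ, 1 / ((m + 1 : ℕ) : ℝ) ^ k := by
  have hs : Summable fun m : ℕ => 1 / ((m + 1 : ℕ) : ℝ) ^ k :=
    (summable_nat_add_iff 1).2 (Real.summable_one_div_nat_pow.2 (by omega))
  have h := hs.sum_le_tsum {0} (fun _ _ => by positivity)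
  simpa using h

/-- the case `d ≠ 0` -/
lemma with_zeta (hT : TAIL) : ∃ n0 : ℕ, ∀ n k : ℕ, n0 ≤ n → n < k → ∀ (A : Finset ℕ) (e : ℕ → ℤ) (d : ℤ)
    (c : ℝ), 0 < c → c ≤ 1 / 2 → (∀ a ∈ A, n ≤ a) → (∀ a ∈ A, |(e a : ℝ)| ≤ (1 + c) ^ n) → d ≠ 0 →
    1 / 2 ≤ |∑ a ∈ A, (e a : ℝ) * dz a (k - a) + d * ∑' m : ℕ, 1 / ((m + 1 : ℕ) : ℝ) ^ k| := by
  have h1 : Tendsto (fun n : ℕ => (32 : ℝ) * (3 / 4) ^ n) atTop (𝓝 0) := by
    simpa using (tendsto_pow_atTop_nhds_zero_of_lt_one (by norm_num : (0 : ℝ) ≤ 3 / 4)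
      (by norm_num)).const_mul 32
  obtain ⟨n1, hn1⟩ := eventually_atTop.1 (h1.eventually (gt_mem_nhds (by norm_num : (0 : ℝ) < 1 / 2)))
  refine ⟨max n1 3, fun n k hn hnk A e d c hc hc2 hA he hd => ?_⟩
  have hn3 : 3 ≤ n := (le_max_right _ _).trans hn
  have h2 := hn1 n ((le_max_left _ _).trans hn)
  have h3 : |∑ a ∈ A, (e a : ℝ) * dz a (k - a)| ≤ 32 * (3 / 4) ^ n := by
    refine (abs_sum_le_sum_abs _ _).trans ?_
    calc ∑ a ∈ A, |(e a : ℝ) * dz a (k - a)| ≤ ∑ a ∈ A, (1 + c) ^ n * 16 * (1 / ((2 : ℕ) : ℝ) ^ a) := by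
          refine sum_le_sum fun a ha => ?_
          rw [abs_mul]
          calc |(e a : ℝ)| * |dz a (k - a)| ≤ (1 + c) ^ n * (16 * (1 / ((2 : ℕ) : ℝ) ^ a)) :=
                mul_le_mul (he a ha) (dz_small hT (hn3.trans (hA a ha))) (abs_nonneg _) (by positivity)
            _ = _ := by ring
      _ = (1 + c) ^ n * 16 * ∑ a ∈ A, 1 / ((2 : ℕ) : ℝ) ^ a := by rw [mul_sum]
      _ ≤ (1 + c) ^ n * 16 * (2 / ((2 : ℕ) : ℝ) ^ n) :=
          mul_le_mul_of_nonneg_left (geom_tail le_rfl hA) (by positivity)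
      _ ≤ (3 / 2) ^ n * 16 * (2 / ((2 : ℕ) : ℝ) ^ n) := by
          have : 1 + c ≤ 3 / 2 := by linarith
          gcongr
      _ = 32 * ((3 / 2) ^ n / 2 ^ n) := by
          push_cast
          ring
      _ = 32 * (3 / 4) ^ n := by
          rw [← div_pow]
          norm_num
  have h4 : 1 ≤ |(d : ℝ) * ∑' m : ℕ, 1 / ((m + 1 : ℕ) : ℝ) ^ k| := by
    have h5 := zeta_ge (k := k) (by omega)
    rw [abs_mul, abs_of_pos (by linarith : 0 < ∑' m : ℕ, 1 / ((m + 1 : ℕ) : ℝ) ^ k)]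
    have h6 : (1 : ℝ) ≤ |(d : ℝ)| := by exact_mod_cast Int.one_le_abs hd
    nlinarith
  have h5 := abs_sub_abs_le_abs_sub ((d : ℝ) * ∑' m : ℕ, 1 / ((m + 1 : ℕ) : ℝ) ^ k)
    (-∑ a ∈ A, (e a : ℝ) * dz a (k - a))
  rw [abs_neg, sub_neg_eq_add, add_comm ((d : ℝ) * _)] at h5
  linarith

/-- the case of a weight close to `n` -/
lemma near_weight (H : ℕ) (hH : 1 ≤ H) (δ : ℝ) (hδ : 0 < δ) : ∃ κ B : ℝ, 1 < κ ∧ 1 < B ∧
    ∀ n k : ℕ, 1 ≤ n → n < k → (k : ℝ) < κ * n → ∀ (A : Finset ℕ) (e : ℕ → ℤ), n ∈ A → e n ≠ 0 →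
      (∀ a ∈ A, n ≤ a ∧ a < k) → (∀ a ∈ A, (a : ℝ) ≤ (1 + δ) * n → |e a| ≤ H) →
      (B ^ n)⁻¹ < |∑ a ∈ A, (e a : ℝ) * dz a (k - a)| := by
  classical
  obtain ⟨C, hC, hmain⟩ := Pool.Agent.NH24.SQ.main
  have hHr : (1 : ℝ) ≤ H := by exact_mod_cast hH
  have hCH : 1 ≤ C * H := by nlinarith
  set η : ℝ := min (1 / (2 * C * H)) δ with hη
  have hη0 : 0 < η := lt_min (by positivity) hδ
  have hη1 : η ≤ 1 / (2 * C * H) := min_le_left _ _
  have hη2 : 2 * (C * H) * η ≤ 1 := by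
    calc 2 * (C * H) * η ≤ 2 * (C * H) * (1 / (2 * C * H)) := by gcongr
      _ = 1 := by field_simp
  have hη3 : η ≤ 1 / 2 := by nlinarith
  refine ⟨1 + η, (C * H) ^ 2 + 1, by linarith, by nlinarith, fun n k hn hnk hκ A e hnA he hA heH => ?_⟩
  have hn0 : (1 : ℝ) ≤ n := by exact_mod_cast hn
  set Q := k - n with hQ
  have hQ1 : 1 ≤ Q := by omega
  have hQr : (Q : ℝ) ≤ η * n := by
    have : ((k - n : ℕ) : ℝ) = k - n := by rw [Nat.cast_sub hnk.le]
    rw [hQ, this]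
    linarith
  have hnk' : (n : ℝ) ≤ k := by exact_mod_cast hnk.le
  have hheq : ∀ q : ℕ, q ∈ Icc 1 Q → k - q ∈ A → k - (k - q) = q := by
    intro q hq _
    rw [mem_Icc] at hq
    omega
  set f : ℕ → ℤ := fun q => if k - q ∈ A then e (k - q) else 0 with hf
  have hHpow : (H : ℝ) ≤ (2 : ℝ) ^ (H : ℝ) := by
    rw [Real.rpow_natCast]
    exact_mod_cast Nat.lt_two_pow_self.le
  have h1 := hmain k Q H hHr (by
      calc C * Q * H = (C * H) * Q := by ring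
        _ ≤ (C * H) * (η * n) := by gcongr
        _ = (C * H * η) * n := by ring
        _ ≤ 1 * n := by
            refine mul_le_mul_of_nonneg_right ?_ (by linarith)
            linarith
        _ ≤ k := by linarith) f 0 (by
      refine ⟨Q, mem_Icc.2 ⟨hQ1, le_rfl⟩, ?_⟩
      have h2 : k - Q = n := by omega
      rw [hf]
      simp only
      rw [h2, if_pos hnA]
      exact he) (by
      intro q hq
      rw [hf]
      simp only
      split_ifs with h2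
      · have h3 := heH _ h2 (by
          have h4 := (hA _ h2).2
          have h5 : ((k - q : ℕ) : ℝ) ≤ k := by exact_mod_cast h4.le
          have h6 : η ≤ δ := min_le_right _ _
          nlinarith)
        have h4 : |(e (k - q) : ℝ)| ≤ H := by exact_mod_cast h3
        exact h4.trans hHpow
      · rw [Int.cast_zero, abs_zero]
        positivity) (by
      rw [Int.cast_zero, abs_zero]
      positivity)
  have h2 : ∑ q ∈ Icc 1 Q, (f q : ℝ) * Pool.Agent.NH24.DZ.dz (k - q) q = ∑ a ∈ A, (e a : ℝ) * dz a (k - a) := by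
    have h3 : (Icc 1 Q).image (fun q => k - q) ∩ A = A := by
      refine Finset.inter_eq_right.2 ?_
      intro a ha
      rw [mem_image]
      have := hA a ha
      exact ⟨k - a, mem_Icc.2 ⟨by omega, by omega⟩, by omega⟩
    have h4 : ∑ a ∈ A, (e a : ℝ) * dz a (k - a) =
        ∑ a ∈ (Icc 1 Q).image (fun q => k - q), (if a ∈ A then (e a : ℝ) * dz a (k - a) else 0) := by
      rw [← sum_filter, Finset.filter_mem_eq_inter, h3]
    rw [h4, sum_image (by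
      intro q hq q' hq' h5
      have h6 := mem_Icc.1 hq
      have h7 := mem_Icc.1 hq'
      simp only at h5
      omega)]
    refine sum_congr rfl fun q hq => ?_
    have h5 : k - (k - q) = q := by
      rw [mem_Icc] at hq
      omega
    rw [hf]
    simp only
    split_ifs with h6
    · rw [h5]
      rfl
    · simp
  rw [h2, Int.cast_zero, zero_mul, add_zero] at h1
  refine lt_of_lt_of_le ?_ h1
  have hmin1 : 1 ≤ min (Q : ℝ) √H := le_min (by exact_mod_cast hQ1) (Real.one_le_sqrt.2 hHr)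
  have hmin2 : min (Q : ℝ) √H ≤ H := (min_le_right _ _).trans (by
    rw [Real.sqrt_le_left (by linarith)]
    nlinarith)
  have hk2 : k ≤ 2 * n := by
    have : (k : ℝ) ≤ 2 * n := by nlinarith
    exact_mod_cast this
  have hb1 : 1 ≤ C * min (Q : ℝ) √H := by nlinarith
  rw [← one_div]
  refine one_div_lt_one_div_of_lt (by positivity) ?_
  calc (C * min (Q : ℝ) √H) ^ k ≤ (C * min (Q : ℝ) √H) ^ (2 * n) := pow_le_pow_right₀ hb1 hk2
    _ ≤ (C * H) ^ (2 * n) := by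
        refine pow_le_pow_left₀ (by linarith) ?_ _
        gcongr
    _ = ((C * H) ^ 2) ^ n := by rw [pow_mul]
    _ < ((C * H) ^ 2 + 1) ^ n := by
        refine pow_lt_pow_left₀ (by linarith) (by positivity) (by omega)

theorem main (H L s : ℕ) (hH : 1 ≤ H) (hL : H < primorial L) (δ : ℝ) (hδ : 0 < δ) :
    ∃ c B : ℝ, 0 < c ∧ 1 < B ∧ ∃ n0 : ℕ,
    ∀ n k : ℕ, n0 ≤ n → n < k → ∀ (A : Finset ℕ) (x : Fin s → ℕ) (e : ℕ → ℤ) (d : ℤ), n ∈ A → e n ≠ 0 →
      (∀ a ∈ A, n ≤ a ∧ a < k) →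
      (∀ a ∈ A, 2 ^ a ≤ (L + 1) ^ n → ∃ i, x i ≤ a ∧ (a : ℝ) ≤ x i + c * n) →
      (∀ a ∈ A, (a : ℝ) ≤ (1 + δ) * n → |e a| ≤ H) → (∀ a ∈ A, |(e a : ℝ)| ≤ (1 + c) ^ n) →
      (B ^ n)⁻¹ < |∑ a ∈ A, (e a : ℝ) * dz a (k - a) + d * ∑' m : ℕ, 1 / ((m + 1 : ℕ) : ℝ) ^ k| := by
  obtain ⟨κ, B1, hκ, hB1, hnear⟩ := near_weight H hH δ hδ
  obtain ⟨c1, hc1, n1, hfar⟩ := main2 t_small t_tail H L s hH hL δ κ hδ hκ
  obtain ⟨n2, hz⟩ := with_zeta t_tail
  set B : ℝ := max (max B1 ((L + 1 : ℕ) : ℝ)) 3 with hB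
  have hB3 : 3 ≤ B := le_max_right _ _
  have hBL : ((L + 1 : ℕ) : ℝ) ≤ B := (le_max_right _ _).trans (le_max_left _ _)
  have hBB1 : B1 ≤ B := (le_max_left _ _).trans (le_max_left _ _)
  refine ⟨min c1 (1 / 2), B, lt_min hc1 (by norm_num), by linarith, max (max n1 n2) 1,
    fun n k hn hnk A x e d hnA he hA hcov heH heC => ?_⟩
  have hn1 : n1 ≤ n := ((le_max_left _ _).trans (le_max_left _ _)).trans hn
  have hn2 : n2 ≤ n := ((le_max_right _ _).trans (le_max_left _ _)).trans hn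
  have hn3 : 1 ≤ n := (le_max_right _ _).trans hn
  set c : ℝ := min c1 (1 / 2) with hc
  have hc0 : 0 < c := lt_min hc1 (by norm_num)
  have hcc1 : c ≤ c1 := min_le_left _ _
  by_cases hd : d = 0
  · subst hd
    rw [Int.cast_zero, zero_mul, add_zero]
    by_cases hk : κ * n ≤ k
    · refine lt_of_le_of_lt ?_ (hfar n k hn1 hk A x e hnA he hA (fun a ha h1 => ?_) heH fun a ha => ?_)
      · refine inv_anti₀ (by positivity) ?_
        exact pow_le_pow_left₀ (by positivity) hBL _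
      · obtain ⟨i, h2, h3⟩ := hcov a ha h1
        refine ⟨i, h2, h3.trans ?_⟩
        gcongr
      · refine (heC a ha).trans ?_
        gcongr
    · refine lt_of_le_of_lt ?_ (hnear n k hn3 hnk (not_le.1 hk) A e hnA he hA heH)
      refine inv_anti₀ (by positivity) ?_
      exact pow_le_pow_left₀ (by positivity) hBB1 _
  · refine lt_of_lt_of_le ?_ (hz n k hn2 hnk A e d c hc0 (min_le_right _ _) (fun a ha => (hA a ha).1) heC hd)
    have h1 : (3 : ℝ) ≤ B ^ n := by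
      calc (3 : ℝ) ≤ B := hB3
        _ = B ^ 1 := (pow_one _).symm
        _ ≤ B ^ n := pow_le_pow_right₀ (by linarith) hn3
    calc (B ^ n)⁻¹ ≤ (3 : ℝ)⁻¹ := inv_anti₀ (by norm_num) h1
      _ < 1 / 2 := by norm_num

end Pool.Agent.NH24.EP
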