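import Mathlib

/-!
# Double zeta values with first arguments in short intervals: statements of the parts

`SMALL` is a consequence of the subspace theorem (`Pool.Agent.R333.SubR.sub_real`): small sums of integers
`q_l D_l` with subexponential `q_l` and `S`-units `D_l` vanish infinitely often.
`TAIL` is an elementary estimate for double zeta values.
-/

set_option autoImplicit false

open Filter Topology

namespace Pool.Agent.NH24.EP

/-- small sums of `S`-units with subexponential coefficients vanish infinitely often -/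
def SMALL : Prop :=
  ∀ (r b κ : ℕ) (φ : ℕ → ℕ) (D : ℕ → Fin r → ℕ) (q : ℕ → Fin r → ℤ) (a : Fin r → ℝ) (a0 : ℝ),
    2 ≤ b → StrictMono φ → (∀ᶠ t in atTop, ∀ l, D t l ∣ b ^ (κ * φ t)) → (∀ l, a0 < a l) →
    (∀ l, Tendsto (fun t => Real.log (D t l) / (φ t * Real.log b)) atTop (𝓝 (a l))) →
    (∀ l, ∀ ε : ℝ, 0 < ε → ∀ᶠ t in atTop, |(q t l : ℝ)| ≤ (b : ℝ) ^ (ε * φ t)) →
    (∀ᶠ t in atTop, |∑ l, (q t l : ℝ) * D t l| ≤ (b : ℝ) ^ (a0 * φ t)) →
    ∃ᶠ t in atTop, ∑ l, q t l * (D t l : ℤ) = 0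

/-- the double zeta value `ζ(p, q)` -/
noncomputable def dz (p q : ℕ) : ℝ :=
  ∑' m : ℕ, (∑ n ∈ Finset.Ico 1 (m + 1), 1 / (n : ℝ) ^ q) / ((m + 1 : ℕ) : ℝ) ^ p

/-- truncation of a double zeta value -/
def TAIL : Prop :=
  ∀ M a q : ℕ, 1 ≤ M → 3 ≤ a →
    |dz a q - ∑ m ∈ Finset.Icc 1 M, ∑ n ∈ Finset.Ico 1 m, 1 / ((m : ℝ) ^ a * (n : ℝ) ^ q)| ≤
      2 * ((M : ℝ) + 1) ^ 3 / ((M : ℝ) + 1) ^ a

end Pool.Agent.NH24.EP
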